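import Pool.Agent.Helper31.L1.Cover

set_option autoImplicit false
set_option linter.unusedSectionVars false

open MeasureTheory Metric Set Module
open scoped ENNReal NNReal

namespace Pool.Agent.Helper31.Mon

open Pool.Agent.Helper31.L1

/-- a monotone function norm -/
structure FN {Ω : Type*} [MeasurableSpace Ω] (ρ : (Ω → ℝ≥0∞) → ℝ≥0∞) : Prop where
  mono : ∀ f g : Ω → ℝ≥0∞, (∀ ω, f ω ≤ g ω) → ρ f ≤ ρ g
  add_le : ∀ f g : Ω → ℝ≥0∞, Measurable f → Measurable g →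
    ρ (fun ω => f ω + g ω) ≤ ρ f + ρ g
  smul : ∀ (c : ℝ≥0) (f : Ω → ℝ≥0∞), Measurable f → ρ (fun ω => c * f ω) = c * ρ f

/-- the `q`-th power is superadditive -/
def Super {Ω : Type*} [MeasurableSpace Ω] (q : ℕ) (ρ : (Ω → ℝ≥0∞) → ℝ≥0∞) : Prop :=
  ∀ f g : Ω → ℝ≥0∞, Measurable f → Measurable g →
    ρ f ^ q + ρ g ^ q ≤ ρ (fun ω => f ω + g ω) ^ q

/-- uniform monotonicity on one scale -/
def Scale {Ω : Type*} [MeasurableSpace Ω] (s δ : ℝ) (ρ : (Ω → ℝ≥0∞) → ℝ≥0∞) : Prop :=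
  ∀ f g : Ω → ℝ≥0∞, Measurable f → Measurable g →
    ENNReal.ofReal s * ρ (fun ω => f ω + g ω) ≤ ρ g →
    ρ f ≤ ENNReal.ofReal (1 - δ) * ρ (fun ω => f ω + g ω)

section
variable {Ω : Type*} [MeasurableSpace Ω] {X : Type*} [NormedAddCommGroup X] [NormedSpace ℝ X]

/-- the space `E` is embedded in the space of `X`-valued functions with the norm `ρ` -/
structure RepL (ρ : (Ω → ℝ≥0∞) → ℝ≥0∞) {E : Type*} [NormedAddCommGroup E] [NormedSpace ℝ E]
    (L : Ω → E →ₗ[ℝ] X) : Prop where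
  meas : ∀ x, StronglyMeasurable (fun ω => L ω x)
  norm : ∀ x, ρ (fun ω => ENNReal.ofReal ‖L ω x‖) = ENNReal.ofReal ‖x‖

variable {ρ : (Ω → ℝ≥0∞) → ℝ≥0∞} {E : Type*} [NormedAddCommGroup E] [NormedSpace ℝ E]
  {L : Ω → E →ₗ[ℝ] X}

lemma RepL.restrict (h : RepL ρ L) (W : Submodule ℝ E) :
    RepL ρ (fun ω => (L ω).comp W.subtype) where
  meas x := h.meas x
  norm x := by simpa using h.norm x

/-- the norm of a real function -/
noncomputable def nn (ρ : (Ω → ℝ≥0∞) → ℝ≥0∞) (f : Ω → ℝ) : ℝ :=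
  (ρ fun ω => ENNReal.ofReal (f ω)).toReal

lemma nn_nonneg (f : Ω → ℝ) : 0 ≤ nn ρ f := ENNReal.toReal_nonneg

lemma RepL.nn_norm (h : RepL ρ L) (x : E) : nn ρ (fun ω => ‖L ω x‖) = ‖x‖ := by
  rw [nn, h.norm, ENNReal.toReal_ofReal (norm_nonneg _)]

lemma RepL.fin (hρ : FN ρ) (h : RepL ρ L) (x : E) {f : Ω → ℝ} (hf : ∀ ω, f ω ≤ ‖L ω x‖) :
    ρ (fun ω => ENNReal.ofReal (f ω)) ≠ ⊤ := by
  have h1 : ρ (fun ω => ENNReal.ofReal (f ω)) ≤ ENNReal.ofReal ‖x‖ := by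
    rw [← h.norm x]
    exact hρ.mono _ _ fun ω => ENNReal.ofReal_le_ofReal (hf ω)
  exact (h1.trans_lt ENNReal.ofReal_lt_top).ne

lemma nn_mono (hρ : FN ρ) {f g : Ω → ℝ} (hfg : ∀ ω, f ω ≤ g ω)
    (hg : ρ (fun ω => ENNReal.ofReal (g ω)) ≠ ⊤) : nn ρ f ≤ nn ρ g :=
  ENNReal.toReal_mono hg (hρ.mono _ _ fun ω => ENNReal.ofReal_le_ofReal (hfg ω))

lemma nn_add (hρ : FN ρ) {f g : Ω → ℝ} (hf0 : ∀ ω, 0 ≤ f ω) (hg0 : ∀ ω, 0 ≤ g ω)
    (hfm : Measurable f) (hgm : Measurable g)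
    (hf : ρ (fun ω => ENNReal.ofReal (f ω)) ≠ ⊤) (hg : ρ (fun ω => ENNReal.ofReal (g ω)) ≠ ⊤) :
    nn ρ (fun ω => f ω + g ω) ≤ nn ρ f + nn ρ g ∧
      ρ (fun ω => ENNReal.ofReal (f ω + g ω)) ≠ ⊤ := by
  have h1 : (fun ω => ENNReal.ofReal (f ω + g ω)) =
      fun ω => ENNReal.ofReal (f ω) + ENNReal.ofReal (g ω) := by
    funext ω
    exact ENNReal.ofReal_add (hf0 ω) (hg0 ω)
  have h2 := hρ.add_le _ _ hfm.ennreal_ofReal hgm.ennreal_ofReal
  rw [nn, h1, nn, nn, ← ENNReal.toReal_add hf hg]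
  exact ⟨ENNReal.toReal_mono (ENNReal.add_ne_top.mpr ⟨hf, hg⟩) h2,
    (h2.trans_lt (ENNReal.add_lt_top.mpr ⟨hf.lt_top, hg.lt_top⟩)).ne⟩

lemma nn_smul (hρ : FN ρ) {f : Ω → ℝ} (hfm : Measurable f) {c : ℝ} (hc : 0 ≤ c) :
    nn ρ (fun ω => c * f ω) = c * nn ρ f := by
  have h1 : (fun ω => ENNReal.ofReal (c * f ω)) =
      fun ω => (c.toNNReal : ℝ≥0∞) * ENNReal.ofReal (f ω) := by
    funext ω
    rw [ENNReal.ofReal_mul hc]
    rfl
  rw [nn, h1, hρ.smul _ _ hfm.ennreal_ofReal, ENNReal.toReal_mul, nn, ENNReal.coe_toReal,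
    Real.coe_toNNReal c hc]

lemma nn_super {q : ℕ} (hρ : FN ρ) (hs : Super q ρ) {f g : Ω → ℝ} (hf0 : ∀ ω, 0 ≤ f ω)
    (hg0 : ∀ ω, 0 ≤ g ω) (hfm : Measurable f) (hgm : Measurable g)
    (hfg : ρ (fun ω => ENNReal.ofReal (f ω + g ω)) ≠ ⊤) :
    nn ρ f ^ q + nn ρ g ^ q ≤ nn ρ (fun ω => f ω + g ω) ^ q := by
  have h1 : (fun ω => ENNReal.ofReal (f ω + g ω)) =
      fun ω => ENNReal.ofReal (f ω) + ENNReal.ofReal (g ω) := by
    funext ω
    exact ENNReal.ofReal_add (hf0 ω) (hg0 ω)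
  have hf : ρ (fun ω => ENNReal.ofReal (f ω)) ≠ ⊤ :=
    ((hρ.mono _ _ fun ω => ENNReal.ofReal_le_ofReal (by linarith [hg0 ω])).trans_lt
      hfg.lt_top).ne
  have hg : ρ (fun ω => ENNReal.ofReal (g ω)) ≠ ⊤ :=
    ((hρ.mono _ _ fun ω => ENNReal.ofReal_le_ofReal (by linarith [hf0 ω])).trans_lt
      hfg.lt_top).ne
  have h2 := hs _ _ hfm.ennreal_ofReal hgm.ennreal_ofReal
  rw [← h1] at h2
  have h3 := ENNReal.toReal_mono (ENNReal.pow_ne_top hfg) h2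
  rw [ENNReal.toReal_add (ENNReal.pow_ne_top hf) (ENNReal.pow_ne_top hg), ENNReal.toReal_pow,
    ENNReal.toReal_pow, ENNReal.toReal_pow] at h3
  exact h3

lemma nn_scale {s δ : ℝ} (hs0 : 0 ≤ s) (hδ : δ ≤ 1) (h : Scale s δ ρ)
    {f g : Ω → ℝ} (hf0 : ∀ ω, 0 ≤ f ω) (hg0 : ∀ ω, 0 ≤ g ω) (hfm : Measurable f)
    (hgm : Measurable g) (hfg : ρ (fun ω => ENNReal.ofReal (f ω + g ω)) ≠ ⊤)
    (hg : ρ (fun ω => ENNReal.ofReal (g ω)) ≠ ⊤)
    (hle : s * nn ρ (fun ω => f ω + g ω) ≤ nn ρ g) :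
    nn ρ f ≤ (1 - δ) * nn ρ (fun ω => f ω + g ω) := by
  have h1 : (fun ω => ENNReal.ofReal (f ω + g ω)) =
      fun ω => ENNReal.ofReal (f ω) + ENNReal.ofReal (g ω) := by
    funext ω
    exact ENNReal.ofReal_add (hf0 ω) (hg0 ω)
  have h2 := h _ _ hfm.ennreal_ofReal hgm.ennreal_ofReal
  rw [← h1] at h2
  have h3 : ENNReal.ofReal s * ρ (fun ω => ENNReal.ofReal (f ω + g ω)) ≤
      ρ (fun ω => ENNReal.ofReal (g ω)) := by
    rw [← ENNReal.ofReal_toReal hfg, ← ENNReal.ofReal_mul hs0, ← ENNReal.ofReal_toReal hg]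
    exact ENNReal.ofReal_le_ofReal hle
  have h4 := ENNReal.toReal_mono (ENNReal.mul_ne_top ENNReal.ofReal_ne_top hfg) (h2 h3)
  rw [ENNReal.toReal_mul, ENNReal.toReal_ofReal (by linarith)] at h4
  exact h4

/-- Bernoulli's inequality in the form needed -/
lemma bern {q : ℕ} (hq : 1 ≤ q) {F G B t : ℝ} (hF0 : 0 ≤ F) (hG0 : 0 ≤ G) (hB0 : 0 ≤ B)
    (ht : 0 < t) (hFt : F ≤ t) (h : G ^ q + B ^ q ≤ F ^ q) :
    G ≤ F - t * ((B / t) ^ q / q) := by
  have hq0 : q ≠ 0 := by omega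
  have hqr : (1 : ℝ) ≤ q := by exact_mod_cast hq
  rcases hF0.eq_or_lt with h0 | hF
  · rw [← h0, zero_pow hq0] at h
    have h1 : 0 ≤ G ^ q := by positivity
    have h2 : 0 ≤ B ^ q := by positivity
    have hG : G = 0 := by
      have : G ^ q = 0 := by linarith
      exact pow_eq_zero_iff hq0 |>.mp this
    have hB : B = 0 := by
      have : B ^ q = 0 := by linarith
      exact pow_eq_zero_iff hq0 |>.mp this
    rw [← h0, hG, hB, zero_div, zero_pow hq0]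
    simp
  have hBF : B ≤ F := by
    have : B ^ q ≤ F ^ q := by
      have : 0 ≤ G ^ q := by positivity
      linarith
    exact le_of_pow_le_pow_left₀ hq0 hF.le this
  set x := (B / F) ^ q with hx
  have hx0 : 0 ≤ x := by positivity
  have hx1 : x ≤ 1 := pow_le_one₀ (by positivity) (by rw [div_le_one hF]; exact hBF)
  have hb : 1 + (q : ℝ) * (-(x / q)) ≤ (1 + -(x / q)) ^ q := by
    apply one_add_mul_le_pow
    have : x / q ≤ 1 := by
      rw [div_le_one (by linarith)]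
      linarith
    linarith
  have hb2 : 1 - x ≤ (1 - x / q) ^ q := by
    have e1 : 1 + (q : ℝ) * (-(x / q)) = 1 - x := by field_simp; ring
    rw [e1] at hb
    exact hb
  have hxq : x / q ≤ 1 := by
    rw [div_le_one (by linarith)]
    linarith
  have hGF : G ≤ F * (1 - x / q) := by
    apply le_of_pow_le_pow_left₀ hq0 (mul_nonneg hF.le (by linarith))
    rw [mul_pow]
    have e2 : F ^ q * x = B ^ q := by
      rw [hx, div_pow]
      field_simp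
    have : F ^ q * (1 - x) ≤ F ^ q * (1 - x / q) ^ q := by gcongr
    nlinarith
  have hfin : t * ((B / t) ^ q / q) ≤ F * (x / q) := by
    have e3 : F * x = B * (B / F) ^ (q - 1) := by
      rw [hx]
      obtain ⟨p, rfl⟩ : ∃ p, q = p + 1 := ⟨q - 1, by omega⟩
      rw [pow_succ, Nat.add_sub_cancel]
      field_simp
    have e4 : t * (B / t) ^ q = B * (B / t) ^ (q - 1) := by
      obtain ⟨p, rfl⟩ : ∃ p, q = p + 1 := ⟨q - 1, by omega⟩
      rw [pow_succ, Nat.add_sub_cancel]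
      field_simp
    have e5 : B * (B / t) ^ (q - 1) ≤ B * (B / F) ^ (q - 1) := by gcongr
    rw [← mul_div_assoc, ← mul_div_assoc, e3, e4]
    gcongr
  nlinarith

/-- what is gained by subtracting functions from `h` -/
def Gain (ρ : (Ω → ℝ≥0∞) → ℝ≥0∞) (s γ : ℝ) : Prop :=
  ∀ (J : Type) [Fintype J] (τ : J → ℝ) (h : Ω → ℝ) (b₁ b₂ : J → Ω → ℝ), (∀ j, 0 ≤ τ j) →
    Measurable h → ρ (fun ω => ENNReal.ofReal (h ω)) ≠ ⊤ →
    (∀ j, Measurable (b₁ j)) → (∀ j, Measurable (b₂ j)) → (∀ j ω, 0 ≤ b₁ j ω) →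
    (∀ j ω, 0 ≤ b₂ j ω) → (∀ j ω, b₁ j ω ≤ h ω) → (∀ j ω, b₂ j ω ≤ h ω) →
    s * (∑ j, τ j) * nn ρ h ≤ ∑ j, τ j * (nn ρ (b₁ j) + nn ρ (b₂ j)) →
    ∑ j, τ j * (nn ρ (fun ω => h ω - b₁ j ω) + nn ρ (fun ω => h ω - b₂ j ω)) ≤
      2 * (1 - γ) * (∑ j, τ j) * nn ρ h

/-- the gain of a norm with a superadditive power -/
lemma gain_super {q : ℕ} (hq : 1 ≤ q) (hρ : FN ρ) (hs : Super q ρ) {s : ℝ} (hs0 : 0 ≤ s) :
    Gain ρ s ((s / 2) ^ q / q) := by
  intro J _ τ h b₁ b₂ hτ hm hfin hm1 hm2 h01 h02 h11 h12 hle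
  set T := ∑ j, τ j with hT
  have hT0 : 0 ≤ T := Finset.sum_nonneg fun j _ => hτ j
  set H := nn ρ h with hH
  have hH0 : 0 ≤ H := nn_nonneg _
  have hqr : (0 : ℝ) < q := by exact_mod_cast hq
  have main : ∀ b : Ω → ℝ, Measurable b → (∀ ω, 0 ≤ b ω) → (∀ ω, b ω ≤ h ω) →
      nn ρ (fun ω => h ω - b ω) ^ q + nn ρ b ^ q ≤ H ^ q := by
    intro b hbm hb0 hb1
    have e : (fun ω => (h ω - b ω) + b ω) = h := by funext ω; ring
    have h1 := nn_super hρ hs (f := fun ω => h ω - b ω) (g := b) (fun ω => by linarith [hb1 ω]) hb0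
      (hm.sub hbm) hbm (by
        have e2 : (fun ω => ENNReal.ofReal ((h ω - b ω) + b ω)) = fun ω => ENNReal.ofReal (h ω) := by
          funext ω
          rw [sub_add_cancel]
        rw [e2]
        exact hfin)
    rw [e] at h1
    exact h1
  rcases hH0.eq_or_lt with hH1 | hHpos
  · have hq0 : q ≠ 0 := by omega
    have hz : ∀ b : Ω → ℝ, Measurable b → (∀ ω, 0 ≤ b ω) → (∀ ω, b ω ≤ h ω) →
        nn ρ (fun ω => h ω - b ω) = 0 := by
      intro b hbm hb0 hb1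
      have h1 := main b hbm hb0 hb1
      rw [← hH1, zero_pow hq0] at h1
      have h2 : 0 ≤ nn ρ (fun ω => h ω - b ω) := nn_nonneg _
      have h3 : 0 ≤ nn ρ b ^ q := pow_nonneg (nn_nonneg _) q
      have h4 : 0 ≤ nn ρ (fun ω => h ω - b ω) ^ q := by positivity
      have h5 : nn ρ (fun ω => h ω - b ω) ^ q = 0 := by linarith
      exact pow_eq_zero_iff hq0 |>.mp h5
    have e : ∀ j, τ j * (nn ρ (fun ω => h ω - b₁ j ω) + nn ρ (fun ω => h ω - b₂ j ω)) = 0 := by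
      intro j
      rw [hz _ (hm1 j) (h01 j) (h11 j), hz _ (hm2 j) (h02 j) (h12 j)]
      ring
    rw [Finset.sum_congr rfl fun j _ => e j, ← hH1]
    simp
  rcases hT0.eq_or_lt with hT1 | hTpos
  · have h2 : ∀ j, τ j = 0 := fun j =>
      (Finset.sum_eq_zero_iff_of_nonneg (fun j _ => hτ j)).mp hT1.symm j (Finset.mem_univ j)
    rw [← hT1]
    simp [h2]
  have hB : ∀ b : Ω → ℝ, Measurable b → (∀ ω, 0 ≤ b ω) → (∀ ω, b ω ≤ h ω) →
      nn ρ (fun ω => h ω - b ω) ≤ H - H * ((nn ρ b / H) ^ q / q) := fun b hbm hb0 hb1 =>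
    bern hq hH0 (nn_nonneg _) (nn_nonneg _) hHpos le_rfl (main b hbm hb0 hb1)
  set x : J → ℝ := fun j => (nn ρ (b₁ j) / H + nn ρ (b₂ j) / H) / 2 with hx
  have hx0 : ∀ j, 0 ≤ x j := fun j => by
    have h1 : 0 ≤ nn ρ (b₁ j) := nn_nonneg _
    have h2 : 0 ≤ nn ρ (b₂ j) := nn_nonneg _
    simp only [hx]
    positivity
  have hj : ∀ j, nn ρ (fun ω => h ω - b₁ j ω) + nn ρ (fun ω => h ω - b₂ j ω) ≤
      2 * H - 2 * H * (x j ^ q / q) := by
    intro j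
    have h1 := hB _ (hm1 j) (h01 j) (h11 j)
    have h2 := hB _ (hm2 j) (h02 j) (h12 j)
    have hB10 : 0 ≤ nn ρ (b₁ j) / H := div_nonneg (nn_nonneg _) hH0
    have hB20 : 0 ≤ nn ρ (b₂ j) / H := div_nonneg (nn_nonneg _) hH0
    have h3 : x j ^ q ≤ ((nn ρ (b₁ j) / H) ^ q + (nn ρ (b₂ j) / H) ^ q) / 2 := by
      have h4 := add_pow_le hB10 hB20 q
      obtain ⟨p, rfl⟩ : ∃ p, q = p + 1 := ⟨q - 1, by omega⟩
      rw [Nat.add_sub_cancel] at h4
      simp only [hx]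
      rw [div_pow, div_le_div_iff₀ (by positivity) (by norm_num)]
      calc (nn ρ (b₁ j) / H + nn ρ (b₂ j) / H) ^ (p + 1) * 2 ≤
            2 ^ p * ((nn ρ (b₁ j) / H) ^ (p + 1) + (nn ρ (b₂ j) / H) ^ (p + 1)) * 2 := by gcongr
        _ = _ := by ring
    have h5 : H * (2 * x j ^ q / q) ≤
        H * (((nn ρ (b₁ j) / H) ^ q + (nn ρ (b₂ j) / H) ^ q) / q) := by
      gcongr
      linarith
    have e6 : H * (2 * x j ^ q / q) = 2 * H * (x j ^ q / q) := by ring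
    have e7 : H * (((nn ρ (b₁ j) / H) ^ q + (nn ρ (b₂ j) / H) ^ q) / q) =
        H * ((nn ρ (b₁ j) / H) ^ q / q) + H * ((nn ρ (b₂ j) / H) ^ q / q) := by ring
    rw [e6, e7] at h5
    linarith
  have hJ : T * (s / 2) ^ q ≤ ∑ j, τ j * x j ^ q := by
    have h4 := Real.pow_arith_mean_le_arith_mean_pow Finset.univ (fun j => τ j / T) x
      (fun j _ => div_nonneg (hτ j) hT0)
      (by rw [← Finset.sum_div, ← hT, div_self hTpos.ne']) (fun j _ => hx0 j) q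
    have h5 : s / 2 ≤ ∑ j, τ j / T * x j := by
      have e2 : ∑ j, τ j / T * x j =
          (1 / (2 * T * H)) * ∑ j, τ j * (nn ρ (b₁ j) + nn ρ (b₂ j)) := by
        rw [Finset.mul_sum]
        refine Finset.sum_congr rfl fun j _ => ?_
        simp only [hx]
        field_simp
      rw [e2]
      calc s / 2 = (1 / (2 * T * H)) * (s * T * H) := by field_simp
        _ ≤ _ := by gcongr
    have h6 : (s / 2) ^ q ≤ ∑ j, τ j / T * x j ^ q :=
      (pow_le_pow_left₀ (by positivity) h5 q).trans h4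
    have e3 : T * ∑ j, τ j / T * x j ^ q = ∑ j, τ j * x j ^ q := by
      rw [Finset.mul_sum]
      refine Finset.sum_congr rfl fun j _ => ?_
      field_simp
    rw [← e3]
    gcongr
  calc ∑ j, τ j * (nn ρ (fun ω => h ω - b₁ j ω) + nn ρ (fun ω => h ω - b₂ j ω))
      ≤ ∑ j, τ j * (2 * H - 2 * H * (x j ^ q / q)) :=
        Finset.sum_le_sum fun j _ => mul_le_mul_of_nonneg_left (hj j) (hτ j)
    _ = 2 * H * (T - (∑ j, τ j * x j ^ q) / q) := by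
        rw [hT, Finset.sum_div, ← Finset.sum_sub_distrib, Finset.mul_sum]
        refine Finset.sum_congr rfl fun j _ => ?_
        ring
    _ ≤ 2 * H * (T - (T * (s / 2) ^ q) / q) := by gcongr
    _ = 2 * (1 - (s / 2) ^ q / q) * T * H := by ring

/-- the gain of a norm which is uniformly monotone on one scale -/
lemma gain_scale {s δ : ℝ} (hs0 : 0 ≤ s) (hδ0 : 0 ≤ δ) (hδ1 : δ ≤ 1) (hρ : FN ρ)
    (hs : Scale (s / 4) δ ρ) : Gain ρ s (δ * s / 4) := by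
  classical
  intro J _ τ h b₁ b₂ hτ hm hfin hm1 hm2 h01 h02 h11 h12 hle
  set T := ∑ j, τ j with hT
  have hT0 : 0 ≤ T := Finset.sum_nonneg fun j _ => hτ j
  set H := nn ρ h with hH
  have hH0 : 0 ≤ H := nn_nonneg _
  -- one function
  have main : ∀ b : Ω → ℝ, Measurable b → (∀ ω, 0 ≤ b ω) → (∀ ω, b ω ≤ h ω) →
      nn ρ (fun ω => h ω - b ω) ≤ H - δ * (nn ρ b - s / 4 * H) := by
    intro b hbm hb0 hb1
    have e : (fun ω => (h ω - b ω) + b ω) = h := by funext ω; ring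
    have e2 : (fun ω => ENNReal.ofReal ((h ω - b ω) + b ω)) = fun ω => ENNReal.ofReal (h ω) := by
      funext ω
      rw [sub_add_cancel]
    have hbH : nn ρ b ≤ H := nn_mono hρ hb1 hfin
    rcases le_total (s / 4 * H) (nn ρ b) with h1 | h1
    · have hbfin : ρ (fun ω => ENNReal.ofReal (b ω)) ≠ ⊤ :=
        ((hρ.mono _ _ fun ω => ENNReal.ofReal_le_ofReal (hb1 ω)).trans_lt hfin.lt_top).ne
      have h2 := nn_scale (by positivity) hδ1 hs (f := fun ω => h ω - b ω) (g := b)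
        (fun ω => by linarith [hb1 ω]) hb0 (hm.sub hbm) hbm (by rw [e2]; exact hfin) hbfin
        (by rw [e]; exact h1)
      rw [e] at h2
      have h3 : δ * (nn ρ b - s / 4 * H) ≤ δ * H := by
        apply mul_le_mul_of_nonneg_left _ hδ0
        have : 0 ≤ s / 4 * H := by positivity
        linarith
      linarith
    · have h2 : nn ρ (fun ω => h ω - b ω) ≤ H := nn_mono hρ (fun ω => by linarith [hb0 ω]) hfin
      have h3 : δ * (nn ρ b - s / 4 * H) ≤ 0 := mul_nonpos_of_nonneg_of_nonpos hδ0 (by linarith)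
      linarith
  have hj : ∀ j, nn ρ (fun ω => h ω - b₁ j ω) + nn ρ (fun ω => h ω - b₂ j ω) ≤
      (2 * H + δ * (s / 2) * H) - δ * (nn ρ (b₁ j) + nn ρ (b₂ j)) := by
    intro j
    have h1 := main _ (hm1 j) (h01 j) (h11 j)
    have h2 := main _ (hm2 j) (h02 j) (h12 j)
    linarith
  calc ∑ j, τ j * (nn ρ (fun ω => h ω - b₁ j ω) + nn ρ (fun ω => h ω - b₂ j ω))
      ≤ ∑ j, τ j * ((2 * H + δ * (s / 2) * H) - δ * (nn ρ (b₁ j) + nn ρ (b₂ j))) :=
        Finset.sum_le_sum fun j _ => mul_le_mul_of_nonneg_left (hj j) (hτ j)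
    _ = (2 * H + δ * (s / 2) * H) * T - δ * ∑ j, τ j * (nn ρ (b₁ j) + nn ρ (b₂ j)) := by
        rw [hT, Finset.mul_sum, Finset.mul_sum, ← Finset.sum_sub_distrib]
        refine Finset.sum_congr rfl fun j _ => ?_
        ring
    _ ≤ (2 * H + δ * (s / 2) * H) * T - δ * (s * T * H) := by gcongr
    _ = 2 * (1 - δ * s / 4) * T * H := by ring

/-- the two point inequality -/
lemma RepL.two_point (hρ : FN ρ) (h : RepL ρ L) {θ ε : ℝ} (hX : Flat X θ ε)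
    (y k : E) {t : ℝ} (ht : 0 < t) {S : Set Ω} (hS : MeasurableSet S)
    (hSy : ∀ ω ∈ S, t * ‖L ω k‖ ≤ ε * ‖L ω y‖) {c : ℝ} (hc0 : 0 ≤ c) (hc1 : c ≤ 1)
    (hc2 : c ≤ 2 * (1 - θ)) :
    ∃ b₁ b₂ : Ω → ℝ, Measurable b₁ ∧ Measurable b₂ ∧ (∀ ω, 0 ≤ b₁ ω) ∧ (∀ ω, 0 ≤ b₂ ω) ∧
      (∀ ω, b₁ ω ≤ ‖L ω (t • k)‖) ∧ (∀ ω, b₂ ω ≤ ‖L ω (t • k)‖) ∧
      c * t * nn ρ (S.indicator fun ω => ‖L ω k‖) ≤ nn ρ b₁ + nn ρ b₂ ∧
      ‖y + t • k‖ + ‖y - t • k‖ ≤ 2 * ‖y‖ + (nn ρ (fun ω => ‖L ω (t • k)‖ - b₁ ω) +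
        nn ρ (fun ω => ‖L ω (t • k)‖ - b₂ ω)) := by
  have hm : ∀ x, Measurable (fun ω => ‖L ω x‖) := fun x => (h.meas x).norm.measurable
  set fy : Ω → ℝ := fun ω => ‖L ω y‖ with hfy
  set fk : Ω → ℝ := fun ω => ‖L ω (t • k)‖ with hfk
  set u : Ω → ℝ := fun ω => ‖L ω (y + t • k)‖ with hu
  set v : Ω → ℝ := fun ω => ‖L ω (y - t • k)‖ with hv
  have hu1 : ∀ ω, u ω ≤ fy ω + fk ω := fun ω => by
    simp only [hu, hfy, hfk, map_add]
    exact norm_add_le _ _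
  have hv1 : ∀ ω, v ω ≤ fy ω + fk ω := fun ω => by
    simp only [hv, hfy, hfk, map_sub]
    exact norm_sub_le _ _
  have hfk0 : ∀ ω, 0 ≤ fk ω := fun ω => norm_nonneg _
  have hfy0 : ∀ ω, 0 ≤ fy ω := fun ω => norm_nonneg _
  have main : ∀ w : Ω → ℝ, Measurable w → (∀ ω, w ω ≤ fy ω + fk ω) →
      (∀ z : E, (∀ ω, w ω = ‖L ω z‖) →
      ‖z‖ ≤ ‖y‖ + nn ρ (fun ω => fk ω - (fk ω - max (w ω - fy ω) 0))) := by
    intro w hwm hw z hz
    set g : Ω → ℝ := fun ω => max (w ω - fy ω) 0 with hg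
    have e0 : (fun ω => fk ω - (fk ω - g ω)) = g := by funext ω; ring
    have hgm : Measurable g := (hwm.sub (hm y)).max measurable_const
    have hg0 : ∀ ω, 0 ≤ g ω := fun ω => le_max_right _ _
    have hgk : ∀ ω, g ω ≤ fk ω := fun ω => max_le (by linarith [hw ω]) (hfk0 ω)
    have hyf := h.fin hρ y (f := fy) fun ω => le_rfl
    have hgf := h.fin hρ (t • k) (f := g) hgk
    have h1 := nn_add hρ hfy0 hg0 (hm y) hgm hyf hgf
    have h2 : nn ρ w ≤ nn ρ (fun ω => fy ω + g ω) :=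
      nn_mono hρ (fun ω => by linarith [le_max_left (w ω - fy ω) 0]) h1.2
    have hz2 : nn ρ w = ‖z‖ := by
      rw [← h.nn_norm z]
      congr 1
      funext ω
      exact hz ω
    have hy2 : nn ρ fy = ‖y‖ := h.nn_norm y
    rw [e0]
    linarith [h1.1]
  have hU := main u (hm _) hu1 (y + t • k) fun ω => rfl
  have hV := main v (hm _) hv1 (y - t • k) fun ω => rfl
  have hb1 : ∀ ω, 0 ≤ fk ω - max (u ω - fy ω) 0 := fun ω => by
    have := max_le (show u ω - fy ω ≤ fk ω by linarith [hu1 ω]) (hfk0 ω)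
    linarith
  have hb2 : ∀ ω, 0 ≤ fk ω - max (v ω - fy ω) 0 := fun ω => by
    have := max_le (show v ω - fy ω ≤ fk ω by linarith [hv1 ω]) (hfk0 ω)
    linarith
  have hb3 : ∀ ω, fk ω - max (u ω - fy ω) 0 ≤ fk ω := fun ω => by
    have := le_max_right (u ω - fy ω) 0
    linarith
  have hb4 : ∀ ω, fk ω - max (v ω - fy ω) 0 ≤ fk ω := fun ω => by
    have := le_max_right (v ω - fy ω) 0
    linarith
  have hm1 : Measurable (fun ω => fk ω - max (u ω - fy ω) 0) :=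
    (hm _).sub (((hm _).sub (hm _)).max measurable_const)
  have hm2 : Measurable (fun ω => fk ω - max (v ω - fy ω) 0) :=
    (hm _).sub (((hm _).sub (hm _)).max measurable_const)
  refine ⟨fun ω => fk ω - max (u ω - fy ω) 0, fun ω => fk ω - max (v ω - fy ω) 0, hm1, hm2,
    hb1, hb2, hb3, hb4, ?_, by linarith⟩
  have h1 := nn_add hρ hb1 hb2 hm1 hm2 (h.fin hρ (t • k) hb3) (h.fin hρ (t • k) hb4)
  refine le_trans ?_ h1.1
  rw [← nn_smul hρ ((hm k).indicator hS) (by positivity)]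
  refine nn_mono hρ (fun ω => ?_) h1.2
  by_cases hω : ω ∈ S
  · rw [Set.indicator_of_mem hω]
    have e1 : fk ω = t * ‖L ω k‖ := by
      simp only [hfk, map_smul, norm_smul, Real.norm_of_nonneg ht.le]
    have h2 := hX (L ω y) (L ω (t • k)) (by
      have := hSy ω hω
      rw [← e1] at this
      exact this)
    have h3 : u ω + v ω ≤ 2 * fy ω + 2 * θ * fk ω := by
      simp only [hu, hv, map_add, map_sub]
      exact h2
    have h4 : c * t * ‖L ω k‖ = c * fk ω := by rw [e1]; ring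
    rw [h4]
    have hk0 := hfk0 ω
    have h5 : c * fk ω ≤ fk ω := by nlinarith
    have h6 : c * fk ω ≤ 2 * (1 - θ) * fk ω := by nlinarith
    have h7 := hu1 ω
    have h8 := hv1 ω
    rcases le_total (u ω - fy ω) 0 with h9 | h9
    · rw [max_eq_right h9]
      have := hb2 ω
      linarith
    · rcases le_total (v ω - fy ω) 0 with h10 | h10
      · rw [max_eq_right h10]
        have := hb1 ω
        linarith
      · rw [max_eq_left h9, max_eq_left h10]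
        linarith
  · rw [Set.indicator_of_notMem hω, mul_zero]
    linarith [hb1 ω, hb2 ω]

end

end Pool.Agent.Helper31.Mon
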