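import Pool.Agent.Helper31.Mon.Unif

set_option autoImplicit false
set_option linter.unusedSectionVars false

open MeasureTheory Metric Set Module
open scoped ENNReal NNReal

namespace Pool.Agent.Helper31.Mon

open Pool.Agent.Helper31.L1

/-- the proportion -/
noncomputable def pl (β b : ℝ) (m : ℕ) : ℝ := β / (23 * ((m : ℝ) + 1) * b ^ m)

universe u

variable {Ω : Type*} [MeasurableSpace Ω] {X : Type*} [NormedAddCommGroup X] [NormedSpace ℝ X]
variable {ρ : (Ω → ℝ≥0∞) → ℝ≥0∞}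

/-- **Main lemma.** -/
theorem main_lemma (hρ : FN ρ) {θ ε β b c σ γ : ℝ} (hε0 : 0 < ε) (hε1 : ε ≤ 1)
    (hX : Flat X θ ε) (hβ : 1 / 2 ≤ β) (hβ1 : β ≤ 1) (hc0 : 0 ≤ c) (hc1 : c ≤ 1)
    (hc2 : c ≤ 2 * (1 - θ)) (hσ0 : 0 ≤ σ) (hσ1 : σ < 1) (hb1 : 1 / (1 - σ) ≤ b)
    (hγ0 : 0 ≤ γ) (hγ1 : γ ≤ 1) (hG : Gain ρ (c * σ) γ) (hb2 : 1 + (1 - γ) / β ≤ b) (m : ℕ) :
    ∀ (E : Type u) [NormedAddCommGroup E] [NormedSpace ℝ E] [FiniteDimensional ℝ E]
      (L : Ω → E →ₗ[ℝ] X) (ℓ : E →ₗ[ℝ] ℝ), RepL ρ L → (∀ x, |ℓ x| ≤ (1 - β) * ‖x‖) →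
      finrank ℝ E = m →
      ∀ (J : Type) [Fintype J] (y : J → E) (τ : J → ℝ), (∀ j, ‖y j‖ + ℓ (y j) ≤ 1) →
        (∀ j, 0 ≤ τ j) →
        ∃ x : E, pl β b m * ∑ j, τ j ≤
          ∑ j, Set.indicator {j | ‖y j - x‖ + ℓ (y j - x) ≤ 1 - dd (ε * β) m} τ j := by
  have hβ0 : 0 < β := by linarith
  have hεβ0 : 0 < ε * β := by positivity
  have hεβ1 : ε * β ≤ 1 := mul_le_one₀ hε1 hβ0.le hβ1
  have hσ' : 0 < 1 - σ := by linarith
  have hb11 : 1 ≤ b := by
    have : 1 ≤ 1 / (1 - σ) := by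
      rw [le_div_iff₀ hσ']
      linarith
    linarith
  have hb0 : 0 < b := by linarith
  have he : 3 * Real.exp 2 ≤ 23 := by
    have h := Real.exp_one_lt_d9
    have h2 : Real.exp 2 = Real.exp 1 * Real.exp 1 := by rw [← Real.exp_add]; norm_num
    rw [h2]
    nlinarith [Real.exp_pos 1]
  induction m with
  | zero =>
    intro E _ _ _ L ℓ hL hℓ hfin J _ y τ hy hτ
    have hsub : Subsingleton E := Module.finrank_zero_iff.mp hfin
    refine ⟨0, ?_⟩
    have h1 : ∀ j, Set.indicator {j | ‖y j - 0‖ + ℓ (y j - 0) ≤ 1 - dd (ε * β) 0} τ j = τ j := by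
      intro j
      rw [Set.indicator_of_mem]
      have : y j = 0 := Subsingleton.elim _ _
      simp [dd, this]
    rw [Finset.sum_congr rfl fun j _ => h1 j]
    have h2 : 0 ≤ ∑ j, τ j := Finset.sum_nonneg fun j _ => hτ j
    have h3 : pl β b 0 ≤ 1 := by
      rw [pl, div_le_one (by positivity)]
      norm_num
      linarith
    nlinarith
  | succ m ih =>
    intro E _ _ _ L ℓ hL hℓ hfin J _ y τ hy hτ
    let _ : MeasurableSpace E := borel E
    have : BorelSpace E := ⟨rfl⟩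
    set κ : ℝ := dd (ε * β) m / 4 with hκ
    have hdm := dd_pos hεβ0 m
    have hdm1 := dd_le_one hεβ0 hεβ1 m
    have hκ0 : 0 < κ := by positivity
    have hκ1 : κ ≤ 1 := by rw [hκ]; linarith
    set r : ℝ := ε * κ / (12 * (finrank ℝ E + 1)) with hr
    have hδ : dd (ε * β) (m + 1) = r * β / (finrank ℝ E + 1) := by
      rw [dd, hr, hκ, hfin]
      push_cast
      field_simp
      ring
    have hmpos : 0 < finrank ℝ E := by omega
    set S : J → Set Ω := fun j => {ω | κ * avg (L ω) ≤ ‖L ω (y j)‖} with hS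
    have hSm : ∀ j, MeasurableSet (S j) := fun j =>
      measurableSet_le (hL.avg_meas.const_mul κ) (hL.meas (y j)).norm.measurable
    have hT0 : 0 ≤ ∑ j, τ j := Finset.sum_nonneg fun j _ => hτ j
    by_cases hcase : ∀ ω, 0 < avg (L ω) → σ * ∑ j, τ j ≤ ∑ j, Set.indicator {j | ω ∈ S j} τ j
    · -- the uniform strategy
      set A : J → Set E := fun j => {x | ‖y j - r • x‖ + ℓ (y j - r • x) ≤ 1 - dd (ε * β) (m + 1)} with hA
      have hcℓ : Continuous ℓ := LinearMap.continuous_of_finiteDimensional ℓ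
      have hAm : ∀ j, MeasurableSet (A j) := fun j =>
        (isClosed_le (by fun_prop) continuous_const).measurableSet
      have h1 := hL.unif_sum hρ hε0 hε1 hX hmpos ℓ hβ hβ1 hℓ hκ0 hκ1 y τ hτ hy S hSm
        (fun j ω hω => hω) hc0 hc1 hc2 hσ0 hγ0 hγ1 hG hcase r hr
      rw [← hδ, hfin] at h1
      set F : E → ℝ := fun x => ∑ j, Set.indicator (A j) (fun _ => τ j) x with hF
      have hFi : ∀ j, Integrable (Set.indicator (A j) (fun _ : E => τ j)) (unif E) := fun j =>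
        (integrable_const _).indicator (hAm j)
      obtain ⟨x, hx⟩ := exists_integral_le (μ := unif E) (f := F)
        (integrable_finsetSum _ fun j _ => hFi j)
      refine ⟨r • x, ?_⟩
      have h2 : ∫ x, F x ∂(unif E) = ∑ j, τ j * (unif E).real (A j) := by
        rw [hF, integral_finsetSum _ fun j _ => hFi j]
        refine Finset.sum_congr rfl fun j _ => ?_
        rw [integral_indicator_const _ (hAm j), smul_eq_mul, mul_comm]
      have hpl : pl β b (m + 1) ≤ β / (3 * Real.exp 2 * (((m + 1 : ℕ) : ℝ) + 1)) *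
          (β / (β + (1 - γ))) ^ (m + 1) := by
        have hden : 0 < β + (1 - γ) := by linarith
        have h3 : 1 / b ≤ β / (β + (1 - γ)) := by
          rw [div_le_div_iff₀ hb0 hden, one_mul]
          have h4 : β * (1 + (1 - γ) / β) ≤ β * b := by gcongr
          have h5 : β * (1 + (1 - γ) / β) = β + (1 - γ) := by
            field_simp
          linarith
        calc pl β b (m + 1) = β / (23 * (((m + 1 : ℕ) : ℝ) + 1)) * (1 / b) ^ (m + 1) := by
              rw [pl, one_div_pow]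
              field_simp
          _ ≤ _ := by gcongr
      calc pl β b (m + 1) * ∑ j, τ j ≤ β / (3 * Real.exp 2 * (((m + 1 : ℕ) : ℝ) + 1)) *
            (β / (β + (1 - γ))) ^ (m + 1) * ∑ j, τ j := by gcongr
        _ ≤ ∑ j, τ j * (unif E).real (A j) := h1
        _ = ∫ x, F x ∂(unif E) := h2.symm
        _ ≤ F x := hx
        _ = ∑ j, Set.indicator {j | ‖y j - r • x‖ + ℓ (y j - r • x) ≤ 1 - dd (ε * β) (m + 1)} τ j := by
            refine Finset.sum_congr rfl fun j _ => ?_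
            by_cases hj : ‖y j - r • x‖ + ℓ (y j - r • x) ≤ 1 - dd (ε * β) (m + 1)
            · rw [Set.indicator_of_mem (show x ∈ A j from hj),
                Set.indicator_of_mem (show j ∈ {j | ‖y j - r • x‖ + ℓ (y j - r • x) ≤ 1 - dd (ε * β) (m + 1)} from hj)]
            · rw [Set.indicator_of_notMem (show x ∉ A j from hj),
                Set.indicator_of_notMem (show j ∉ {j | ‖y j - r • x‖ + ℓ (y j - r • x) ≤ 1 - dd (ε * β) (m + 1)} from hj)]
    · -- the hyperplane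
      push Not at hcase
      obtain ⟨ω, hω0, hω⟩ := hcase
      have hω' : (1 - σ) * ∑ j, τ j ≤ ∑ j, Set.indicator {j | ω ∉ S j} τ j := by
        have e1 : ∑ j, Set.indicator {j | ω ∈ S j} τ j + ∑ j, Set.indicator {j | ω ∉ S j} τ j =
            ∑ j, τ j := by
          rw [← Finset.sum_add_distrib]
          refine Finset.sum_congr rfl fun j _ => ?_
          by_cases hj : ω ∈ S j
          · rw [Set.indicator_of_mem (show j ∈ {j | ω ∈ S j} from hj),
              Set.indicator_of_notMem (show j ∉ {j | ω ∉ S j} from fun h => h hj), add_zero]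
          · rw [Set.indicator_of_notMem (show j ∉ {j | ω ∈ S j} from hj),
              Set.indicator_of_mem (show j ∈ {j | ω ∉ S j} from hj), zero_add]
        linarith
      obtain ⟨W, hWfin, hW⟩ := hyperplane (L ω) hω0 hfin ℓ hβ hℓ
      have hz : ∀ j, ∃ z : W, ‖z‖ + (ℓ.comp W.subtype) z ≤ 1 ∧
          (ω ∉ S j → ‖y j - z‖ + ℓ (y j - z) ≤ 3 * κ) := by
        intro j
        by_cases hj : ω ∈ S j
        · exact ⟨0, by simp, fun h => absurd hj h⟩
        · have hlt : ‖L ω (y j)‖ < κ * avg (L ω) := not_le.mp hj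
          obtain ⟨z, hz1, hz2, hz3⟩ := hW κ hκ0 (y j) (hy j) hlt
          exact ⟨⟨z, hz1⟩, hz2, fun _ => hz3⟩
      choose z hz1 hz2 using hz
      obtain ⟨xB, hxB⟩ := ih W (fun ω => (L ω).comp W.subtype) (ℓ.comp W.subtype) (hL.restrict W)
        (fun x => hℓ x) hWfin J z
        (Set.indicator {j | ω ∉ S j} τ) hz1 (fun j => Set.indicator_nonneg (fun j _ => hτ j) j)
      have hκδ : dd (ε * β) (m + 1) + 3 * κ ≤ dd (ε * β) m := by
        rw [dd, hκ]
        have h1 : ε * β * dd (ε * β) m / (48 * ((m : ℝ) + 2) ^ 2) ≤ dd (ε * β) m / 4 := by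
          rw [div_le_iff₀ (by positivity)]
          have h2 : (0 : ℝ) ≤ m := Nat.cast_nonneg m
          nlinarith [mul_le_mul_of_nonneg_right hεβ1 hdm.le, mul_nonneg hdm.le h2,
            mul_nonneg hdm.le (mul_nonneg h2 h2)]
        linarith
      refine ⟨xB, ?_⟩
      have hplm : 0 ≤ pl β b m := by unfold pl; positivity
      have hpl : pl β b (m + 1) ≤ pl β b m * (1 - σ) := by
        have h1 : 1 / b ≤ 1 - σ := by
          rw [div_le_iff₀ hb0]
          rw [div_le_iff₀ hσ'] at hb1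
          linarith
        calc pl β b (m + 1) ≤ pl β b m * (1 / b) := by
              rw [pl, pl]
              push_cast
              rw [div_mul_div_comm, mul_one]
              refine div_le_div_of_nonneg_left hβ0.le (by positivity) ?_
              rw [pow_succ, ← mul_assoc]
              gcongr
              linarith
          _ ≤ _ := by gcongr
      calc pl β b (m + 1) * ∑ j, τ j ≤ pl β b m * (1 - σ) * ∑ j, τ j := by gcongr
        _ = pl β b m * ((1 - σ) * ∑ j, τ j) := by ring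
        _ ≤ pl β b m * ∑ j, Set.indicator {j | ω ∉ S j} τ j := by gcongr
        _ ≤ _ := hxB
        _ ≤ _ := by
            refine Finset.sum_le_sum fun j _ => ?_
            by_cases h1 : ‖z j - xB‖ + (ℓ.comp W.subtype) (z j - xB) ≤ 1 - dd (ε * β) m
            · rw [Set.indicator_of_mem (show j ∈ {j | ‖z j - xB‖ +
                (ℓ.comp W.subtype) (z j - xB) ≤ 1 - dd (ε * β) m} from h1)]
              by_cases h2 : ω ∈ S j
              · rw [Set.indicator_of_notMem (by simpa using h2)]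
                exact Set.indicator_nonneg (fun j _ => hτ j) j
              · rw [Set.indicator_of_mem (by simpa using h2), Set.indicator_of_mem]
                have h3 := hz2 j h2
                have h4 : ‖(z j : E) - xB‖ + ℓ ((z j : E) - xB) ≤ 1 - dd (ε * β) m := h1
                have h5 : y j - xB = (y j - z j) + ((z j : E) - xB) := by abel
                have h6 := norm_add_le (y j - z j : E) ((z j : E) - xB)
                show ‖y j - xB‖ + ℓ (y j - xB) ≤ 1 - dd (ε * β) (m + 1)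
                rw [h5, map_add]
                linarith
            · rw [Set.indicator_of_notMem (show j ∉ {j | ‖z j - xB‖ +
                (ℓ.comp W.subtype) (z j - xB) ≤ 1 - dd (ε * β) m} from h1)]
              exact Set.indicator_nonneg (fun j _ => hτ j) j

/-- the number of translates -/
noncomputable def bl (ε β b : ℝ) (n : ℕ) : ℝ :=
  23 * ((n : ℝ) + 1) * b ^ n / β * (n * Real.log (1 + 12 / dd (ε * β) n)) + 1

/-- **Covering theorem**, in the normed space. -/
theorem cover_space (hρ : FN ρ) {θ ε β b c σ γ : ℝ} (hε0 : 0 < ε) (hε1 : ε ≤ 1)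
    (hX : Flat X θ ε) (hβ : 1 / 2 ≤ β) (hβ1 : β ≤ 1) (hc0 : 0 ≤ c) (hc1 : c ≤ 1)
    (hc2 : c ≤ 2 * (1 - θ)) (hσ0 : 0 ≤ σ) (hσ1 : σ < 1) (hb1 : 1 / (1 - σ) ≤ b)
    (hγ0 : 0 ≤ γ) (hγ1 : γ ≤ 1) (hG : Gain ρ (c * σ) γ) (hb2 : 1 + (1 - γ) / β ≤ b)
    (E : Type u) [NormedAddCommGroup E] [NormedSpace ℝ E] [FiniteDimensional ℝ E]
    (L : Ω → E →ₗ[ℝ] X) (ℓ : E →ₗ[ℝ] ℝ) (hL : RepL ρ L) (hℓ : ∀ x, |ℓ x| ≤ (1 - β) * ‖x‖) :
    ∃ T : Finset E, (T.card : ℝ) ≤ bl ε β b (finrank ℝ E) ∧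
      ∀ y : E, ‖y‖ + ℓ y ≤ 1 → ∃ x ∈ T, ‖y - x‖ + ℓ (y - x) < 1 := by
  classical
  set n := finrank ℝ E with hn
  have hβ0 : 0 < β := by linarith
  have hεβ0 : 0 < ε * β := by positivity
  have hεβ1 : ε * β ≤ 1 := mul_le_one₀ hε1 hβ0.le hβ1
  have hσ' : 0 < 1 - σ := by linarith
  have hb11 : 1 ≤ b := by
    have : 1 ≤ 1 / (1 - σ) := by
      rw [le_div_iff₀ hσ']
      linarith
    linarith
  have hb0 : 0 < b := by linarith
  set d := dd (ε * β) n with hd
  have hd0 : 0 < d := dd_pos hεβ0 n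
  set K : Set E := {y | ‖y‖ + ℓ y ≤ 1} with hK
  have hK2 : ∀ x ∈ K, ‖x‖ ≤ 2 := by
    intro x hx
    have h1 : ‖x‖ + ℓ x ≤ 1 := hx
    have h2 := (abs_le.mp (hℓ x)).1
    have h3 := norm_nonneg x
    nlinarith
  obtain ⟨Y, hY1, hY2, hY3⟩ := exists_net K hK2 (δ := d / 3) (by positivity)
  have h0K : (0 : E) ∈ K := by simp [hK]
  obtain ⟨y₀, hy₀, _⟩ := hY2 0 h0K
  have hYne : Nonempty (Fin Y.card) := ⟨⟨0, Finset.card_pos.mpr ⟨y₀, hy₀⟩⟩⟩
  set y : Fin Y.card → E := fun j => (Y.equivFin.symm j : E) with hy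
  have hyY : ∀ j, y j ∈ Y := fun j => (Y.equivFin.symm j).2
  set A : E → Set (Fin Y.card) := fun x => {j | ‖y j - x‖ + ℓ (y j - x) ≤ 1 - d} with hA
  have hp0 : 0 < pl β b n := by unfold pl; positivity
  have hp1 : pl β b n ≤ 1 := by
    rw [pl, div_le_one (by positivity)]
    have h1 : 1 ≤ b ^ n := one_le_pow₀ hb11
    have h2 : (0 : ℝ) ≤ n := Nat.cast_nonneg n
    have h3 : (1 : ℝ) ≤ 23 * ((n : ℝ) + 1) := by nlinarith
    calc β ≤ 1 := hβ1
      _ = 1 * 1 := by ring
      _ ≤ 23 * ((n : ℝ) + 1) * b ^ n := by gcongr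
  obtain ⟨T, hT1, hT2⟩ := cover_finite A (pl β b n) hp0 hp1 (by
    intro τ hτ
    exact main_lemma hρ hε0 hε1 hX hβ hβ1 hc0 hc1 hc2 hσ0 hσ1 hb1 hγ0 hγ1 hG hb2 n E L ℓ hL hℓ hn.symm
      (Fin Y.card) y τ (fun j => hY1 _ (hyY j)) hτ)
  refine ⟨T, ?_, ?_⟩
  · refine hT1.trans ?_
    rw [bl, Fintype.card_fin]
    have hYc : (0 : ℝ) < Y.card := by
      exact_mod_cast Finset.card_pos.mpr ⟨y₀, hy₀⟩
    have h1 : Real.log Y.card ≤ n * Real.log (1 + 12 / d) := by
      have h2 : (Y.card : ℝ) ≤ (1 + 12 / d) ^ n := by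
        refine hY3.trans (le_of_eq ?_)
        congr 2
        field_simp
        norm_num
      calc Real.log Y.card ≤ Real.log ((1 + 12 / d) ^ n) := Real.log_le_log hYc h2
        _ = n * Real.log (1 + 12 / d) := Real.log_pow _ _
    have h3 : Real.log Y.card / pl β b n =
        23 * ((n : ℝ) + 1) * b ^ n / β * Real.log Y.card := by
      rw [pl]
      field_simp
    rw [h3]
    gcongr
  · intro z hz
    obtain ⟨w, hw, hzw⟩ := hY2 z hz
    obtain ⟨j, hj⟩ : ∃ j, y j = w := ⟨Y.equivFin ⟨w, hw⟩, by simp [hy]⟩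
    obtain ⟨x, hx, hjx⟩ := hT2 j
    refine ⟨x, hx, ?_⟩
    have h1 : ‖w - x‖ + ℓ (w - x) ≤ 1 - d := by rw [← hj]; exact hjx
    have h2 : z - x = (z - w) + (w - x) := by abel
    have h3 := norm_add_le (z - w) (w - x)
    have h4 := (abs_le.mp (hℓ (z - w))).2
    have h5 : (1 - β) * ‖z - w‖ ≤ (1 / 2) * ‖z - w‖ := by
      gcongr
      linarith
    rw [h2, map_add]
    linarith

end Pool.Agent.Helper31.Mon
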