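import Pool.Agent.Helper31.Mon.Main
import Pool.Agent.Helper31.L1.Num

set_option autoImplicit false

namespace Pool.Agent.Helper31.Mon

open Pool.Agent.Helper31.L1

lemma log_le_twentieth {z : ℝ} (hz : 100 ≤ z) : Real.log z ≤ z / 20 := by
  have h1 : Real.log 100 ≤ 4.7 := by
    have h2 : (100 : ℝ) ^ 10 ≤ Real.exp 1 ^ 47 := by
      calc (100 : ℝ) ^ 10 ≤ 2.7182818283 ^ 47 := by norm_num
        _ ≤ Real.exp 1 ^ 47 := by
          gcongr
          exact Real.exp_one_gt_d9.le
    have h3 := Real.log_le_log (by norm_num) h2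
    rw [Real.log_pow, Real.log_pow, Real.log_exp] at h3
    push_cast at h3
    linarith
  have h2 : z = 100 * (z / 100) := by ring
  rw [h2, Real.log_mul (by norm_num) (by positivity)]
  have h3 := Real.log_le_sub_one_of_pos (show 0 < z / 100 by positivity)
  linarith

/-- the explicit threshold -/
lemma bl_lt {ε β g : ℝ} (hε0 : 0 < ε) (hε1 : ε ≤ 1) (hβ : 1 / 2 ≤ β) (hβ1 : β ≤ 1) (hg0 : 0 < g)
    (hg1 : g ≤ 1 / 5) {n : ℕ} (hn : 20 / g * Real.log (20 / (g * ε)) ≤ n) :
    bl ε β (2 - g) n < 2 ^ n := by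
  have hβ0 : 0 < β := by linarith
  set G := 20 / g with hG
  have hG0 : 0 < G := by positivity
  have hG100 : 100 ≤ G := by
    rw [hG, le_div_iff₀ hg0]
    linarith
  have hGε : 20 / (g * ε) = G / ε := by rw [hG]; field_simp
  rw [hGε] at hn
  have hGε2 : G ≤ G / ε := by
    rw [le_div_iff₀ hε0]
    nlinarith
  set v : ℝ := n / G with hv
  set z := Real.exp v with hz
  have hvl : Real.log (G / ε) ≤ v := by
    rw [hv, le_div_iff₀ hG0]
    linarith
  have hzG : G / ε ≤ z := by
    rw [hz, ← Real.exp_log (show 0 < G / ε by positivity)]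
    exact Real.exp_le_exp.mpr hvl
  have hz100 : 100 ≤ z := by linarith
  have hz0 : 0 < z := by linarith
  have hlz : v = Real.log z := by rw [hz, Real.log_exp]
  have hv20 : v ≤ z / 20 := by rw [hlz]; exact log_le_twentieth hz100
  have hv0 : 0 ≤ v := by positivity
  have hnv : (n : ℝ) = G * v := by rw [hv]; field_simp
  have hn0 : (0 : ℝ) ≤ n := Nat.cast_nonneg n
  have hn1 : (n : ℝ) ≤ z ^ 2 / 20 := by
    rw [hnv]
    calc G * v ≤ z * (z / 20) := by
          gcongr
          linarith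
      _ = z ^ 2 / 20 := by ring
  -- the logarithm
  have hεβ0 : 0 < ε * β := by positivity
  have hεβ1 : ε * β ≤ 1 := mul_le_one₀ hε1 hβ0.le hβ1
  have hL := log_dd hεβ0 hεβ1 n
  have hlog13 : Real.log 13 ≤ 3 := by
    have h2 : (13 : ℝ) ≤ Real.exp 1 ^ 3 := by
      calc (13 : ℝ) ≤ 2.7182818283 ^ 3 := by norm_num
        _ ≤ Real.exp 1 ^ 3 := by
          gcongr
          exact Real.exp_one_gt_d9.le
    have h3 := Real.log_le_log (by norm_num) h2
    rw [Real.log_pow, Real.log_exp] at h3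
    push_cast at h3
    linarith
  have hlog48 : Real.log 48 ≤ 4 := by
    have h2 : (48 : ℝ) ≤ Real.exp 1 ^ 4 := by
      calc (48 : ℝ) ≤ 2.7182818283 ^ 4 := by norm_num
        _ ≤ Real.exp 1 ^ 4 := by
          gcongr
          exact Real.exp_one_gt_d9.le
    have h3 := Real.log_le_log (by norm_num) h2
    rw [Real.log_pow, Real.log_exp] at h3
    push_cast at h3
    linarith
  have hlogε : -Real.log (ε * β) ≤ z / 20 := by
    rw [← Real.log_inv]
    have h1 : (ε * β)⁻¹ ≤ z := by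
      have h2 : (ε * β)⁻¹ ≤ 2 / ε := by
        rw [inv_eq_one_div, div_le_div_iff₀ hεβ0 hε0]
        nlinarith
      have h3 : 2 / ε ≤ G / ε := by
        gcongr
        linarith
      linarith
    calc Real.log (ε * β)⁻¹ ≤ Real.log z := Real.log_le_log (by positivity) h1
      _ ≤ z / 20 := log_le_twentieth hz100
  have hlogn : Real.log ((n : ℝ) + 1) ≤ z / 10 := by
    have h1 : (n : ℝ) + 1 ≤ z ^ 2 := by nlinarith
    calc Real.log ((n : ℝ) + 1) ≤ Real.log (z ^ 2) := Real.log_le_log (by positivity) h1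
      _ = 2 * Real.log z := by rw [Real.log_pow]; norm_num
      _ ≤ 2 * (z / 20) := by
        gcongr
        exact log_le_twentieth hz100
      _ = z / 10 := by ring
  have hL2 : Real.log (1 + 12 / dd (ε * β) n) ≤ z ^ 3 / 60 := by
    calc _ ≤ _ := hL
      _ ≤ 3 + n * (4 + z / 20 + 2 * (z / 10)) := by
        gcongr
        linarith
      _ ≤ 3 + z ^ 2 / 20 * (4 + z / 20 + 2 * (z / 10)) := by gcongr
      _ ≤ z ^ 3 / 60 := by
        have h1 : z ^ 2 * 100 ≤ z ^ 2 * z := by gcongr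
        have h2 : (100 : ℝ) ^ 2 ≤ z ^ 2 := by gcongr
        nlinarith
  have hL0 : 0 ≤ Real.log (1 + 12 / dd (ε * β) n) := by
    apply Real.log_nonneg
    have := dd_pos hεβ0 n
    have : 0 ≤ 12 / dd (ε * β) n := by positivity
    linarith
  -- the power
  have hpow : (1 - g / 2) ^ n ≤ (z ^ 10)⁻¹ := by
    have h1 : 1 - g / 2 ≤ Real.exp (-(g / 2)) := by
      have := Real.add_one_le_exp (-(g / 2))
      linarith
    calc (1 - g / 2) ^ n ≤ Real.exp (-(g / 2)) ^ n := pow_le_pow_left₀ (by linarith) h1 n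
      _ = (z ^ 10)⁻¹ := by
        rw [← Real.exp_nat_mul, hz, ← Real.exp_nat_mul, ← Real.exp_neg]
        congr 1
        rw [hv, hG]
        push_cast
        field_simp
        ring
  have hb : (2 - g) ^ n = 2 ^ n * (1 - g / 2) ^ n := by
    rw [← mul_pow]
    congr 1
    ring
  have h2n : (2 : ℝ) ≤ 2 ^ n := by
    have hn1' : 1 ≤ n := by
      by_contra h0
      have h00 : n = 0 := by omega
      rw [h00] at hn
      have h3 : 0 < Real.log (G / ε) := Real.log_pos (by linarith)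
      have h4 : 0 < G * Real.log (G / ε) := by positivity
      push_cast at hn
      linarith
    calc (2 : ℝ) = 2 ^ 1 := by norm_num
      _ ≤ 2 ^ n := pow_le_pow_right₀ (by norm_num) hn1'
  have h2n0 : (0 : ℝ) < 2 ^ n := by positivity
  have hn2 : (n : ℝ) + 1 ≤ z ^ 2 / 19 := by nlinarith
  have hβi : 23 / β ≤ 46 := by
    rw [div_le_iff₀ hβ0]
    linarith
  have hmain : 23 * ((n : ℝ) + 1) * (2 - g) ^ n / β *
      (n * Real.log (1 + 12 / dd (ε * β) n)) ≤ 2 ^ n * (1 / 2) * (1 / 2) := by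
    have hpn : 0 ≤ (1 - g / 2) ^ n := pow_nonneg (by linarith) n
    calc 23 * ((n : ℝ) + 1) * (2 - g) ^ n / β * (n * Real.log (1 + 12 / dd (ε * β) n))
        = 2 ^ n * (1 - g / 2) ^ n * (23 / β * ((n + 1) * (n *
            Real.log (1 + 12 / dd (ε * β) n)))) := by rw [hb]; ring
      _ ≤ 2 ^ n * (z ^ 10)⁻¹ * (46 * (z ^ 2 / 19 * (z ^ 2 / 20 * (z ^ 3 / 60)))) := by gcongr
      _ = 2 ^ n * (46 / 22800 * (z ^ 3)⁻¹) := by
          field_simp
          ring
      _ ≤ 2 ^ n * (1 / 2) * (1 / 2) := by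
          rw [mul_assoc]
          refine mul_le_mul_of_nonneg_left ?_ h2n0.le
          have h1 : (z ^ 3)⁻¹ ≤ 1 := inv_le_one_of_one_le₀ (one_le_pow₀ (by linarith))
          linarith
  rw [bl]
  linarith

end Pool.Agent.Helper31.Mon
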