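import Pool.Agent.Helper31.Mon.Num

set_option autoImplicit false
set_option linter.unusedSectionVars false

open MeasureTheory Metric Set Module
open scoped ENNReal NNReal

namespace Pool.Agent.Helper31.Mon

open Pool.Agent.Helper31.L1

/-- a copy of `ℝⁿ` -/
def V (n : ℕ) : Type := EuclideanSpace ℝ (Fin n)

noncomputable instance (n : ℕ) : AddCommGroup (V n) := inferInstanceAs (AddCommGroup (EuclideanSpace ℝ (Fin n)))
noncomputable instance (n : ℕ) : Module ℝ (V n) := inferInstanceAs (Module ℝ (EuclideanSpace ℝ (Fin n)))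

/-- the identity -/
noncomputable def idV (n : ℕ) : EuclideanSpace ℝ (Fin n) ≃ₗ[ℝ] V n := LinearEquiv.refl ℝ _

/-- the convex bodies defined by linear maps into normed spaces -/
theorem body_convex' {β : ℝ} (hβ : 0 < β) {n : ℕ} {F : Type*} [NormedAddCommGroup F]
    [NormedSpace ℝ F] (T : EuclideanSpace ℝ (Fin n) →ₗ[ℝ] F) (hT : Function.Injective T)
    (ℓ : EuclideanSpace ℝ (Fin n) →ₗ[ℝ] ℝ) (hℓ : ∀ x, |ℓ x| ≤ (1 - β) * ‖T x‖) :
    (Convex ℝ {x | ‖T x‖ + ℓ x ≤ 1} ∧ IsCompact {x | ‖T x‖ + ℓ x ≤ 1} ∧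
      (interior {x | ‖T x‖ + ℓ x ≤ 1}).Nonempty) ∧
      {x | ‖T x‖ + ℓ x < 1} ⊆ interior {x | ‖T x‖ + ℓ x ≤ 1} := by
  have hTc : Continuous T := LinearMap.continuous_of_finiteDimensional T
  have hℓc : Continuous ℓ := LinearMap.continuous_of_finiteDimensional ℓ
  have hopen : IsOpen {x : EuclideanSpace ℝ (Fin n) | ‖T x‖ + ℓ x < 1} :=
    isOpen_lt (by fun_prop) continuous_const
  have hsub : {x : EuclideanSpace ℝ (Fin n) | ‖T x‖ + ℓ x < 1} ⊆ {x | ‖T x‖ + ℓ x ≤ 1} :=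
    fun z (hz : ‖T z‖ + ℓ z < 1) => show ‖T z‖ + ℓ z ≤ 1 from hz.le
  have hint := interior_maximal hsub hopen
  refine ⟨⟨?_, ?_, ?_⟩, hint⟩
  · intro x hx y hy a c ha hc hac
    have hx' : ‖T x‖ + ℓ x ≤ 1 := hx
    have hy' : ‖T y‖ + ℓ y ≤ 1 := hy
    show ‖T (a • x + c • y)‖ + ℓ (a • x + c • y) ≤ 1
    rw [map_add, map_smul, map_smul, map_add, map_smul, map_smul]
    have h1 : ‖a • T x + c • T y‖ ≤ a * ‖T x‖ + c * ‖T y‖ := by
      refine (norm_add_le _ _).trans (le_of_eq ?_)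
      rw [norm_smul, norm_smul, Real.norm_of_nonneg ha, Real.norm_of_nonneg hc]
    simp only [smul_eq_mul]
    calc _ ≤ a * (‖T x‖ + ℓ x) + c * (‖T y‖ + ℓ y) := by linarith
      _ ≤ a * 1 + c * 1 := by gcongr
      _ = 1 := by linarith
  · refine Metric.isCompact_of_isClosed_isBounded ?_ ?_
    · exact isClosed_le (by fun_prop) continuous_const
    · obtain ⟨c, hc0, hc⟩ := T.toContinuousLinearMap.exists_antilipschitzWith
        (LinearMap.ker_eq_bot.mpr hT)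
      rw [isBounded_iff_forall_norm_le]
      refine ⟨c * (1 / β), fun x hx => ?_⟩
      have hx' : ‖T x‖ + ℓ x ≤ 1 := hx
      have h1 := (abs_le.mp (hℓ x)).1
      have h2 : ‖T x‖ ≤ 1 / β := by
        rw [le_div_iff₀ hβ]
        linarith
      have h3 : ‖x‖ ≤ c * ‖T x‖ := by
        have := hc.le_mul_dist x 0
        simpa using this
      calc ‖x‖ ≤ c * ‖T x‖ := h3
        _ ≤ c * (1 / β) := by gcongr
  · exact ⟨0, hint (by simp)⟩

section
variable {Ω : Type*} [MeasurableSpace Ω] {X : Type*} [NormedAddCommGroup X] [NormedSpace ℝ X]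

/-- the linear maps `x ↦ ∑ xᵢ fᵢ(ω)` -/
noncomputable def Lmap {n : ℕ} (f : Fin n → Ω → X) (ω : Ω) : V n →ₗ[ℝ] X :=
  (∑ i, (LinearMap.toSpanSingleton ℝ X (f i ω)).comp
    ((EuclideanSpace.proj i : EuclideanSpace ℝ (Fin n) →L[ℝ] ℝ) :
      EuclideanSpace ℝ (Fin n) →ₗ[ℝ] ℝ)).comp (idV n).symm.toLinearMap

lemma Lmap_apply {n : ℕ} (f : Fin n → Ω → X) (ω : Ω) (x : EuclideanSpace ℝ (Fin n)) :
    Lmap f ω (idV n x) = ∑ i, x i • f i ω := by
  simp [Lmap]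

/-- the covering theorem for function spaces -/
theorem cover_body {ρ : (Ω → ℝ≥0∞) → ℝ≥0∞} (hρ : FN ρ)
    {θ ε β b c σ γ : ℝ} (hε0 : 0 < ε) (hε1 : ε ≤ 1)
    (hX : Flat X θ ε) (hβ : 1 / 2 ≤ β) (hβ1 : β ≤ 1) (hc0 : 0 ≤ c) (hc1 : c ≤ 1)
    (hc2 : c ≤ 2 * (1 - θ)) (hσ0 : 0 ≤ σ) (hσ1 : σ < 1) (hb1 : 1 / (1 - σ) ≤ b)
    (hγ0 : 0 ≤ γ) (hγ1 : γ ≤ 1) (hG : Gain ρ (c * σ) γ) (hb2 : 1 + (1 - γ) / β ≤ b) {n : ℕ} (f : Fin n → Ω → X)
    (hf : ∀ i, StronglyMeasurable (f i))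
    (hfin : ∀ x : EuclideanSpace ℝ (Fin n), ρ (fun ω => ENNReal.ofReal ‖∑ i, x i • f i ω‖) ≠ ⊤)
    (hdef : ∀ x : EuclideanSpace ℝ (Fin n), x ≠ 0 →
      ρ (fun ω => ENNReal.ofReal ‖∑ i, x i • f i ω‖) ≠ 0)
    (ℓ : EuclideanSpace ℝ (Fin n) →ₗ[ℝ] ℝ)
    (hℓ : ∀ x, |ℓ x| ≤ (1 - β) * (ρ (fun ω => ENNReal.ofReal ‖∑ i, x i • f i ω‖)).toReal) :
    (Convex ℝ {x : EuclideanSpace ℝ (Fin n) |
        (ρ (fun ω => ENNReal.ofReal ‖∑ i, x i • f i ω‖)).toReal + ℓ x ≤ 1} ∧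
      IsCompact {x : EuclideanSpace ℝ (Fin n) |
        (ρ (fun ω => ENNReal.ofReal ‖∑ i, x i • f i ω‖)).toReal + ℓ x ≤ 1} ∧
      (interior {x : EuclideanSpace ℝ (Fin n) |
        (ρ (fun ω => ENNReal.ofReal ‖∑ i, x i • f i ω‖)).toReal + ℓ x ≤ 1}).Nonempty) ∧
    ∃ F : Finset (EuclideanSpace ℝ (Fin n)), (F.card : ℝ) ≤ bl ε β b n ∧
      {x : EuclideanSpace ℝ (Fin n) |
        (ρ (fun ω => ENNReal.ofReal ‖∑ i, x i • f i ω‖)).toReal + ℓ x ≤ 1} ⊆
      ⋃ t ∈ F, (fun x => t + x) '' interior {x : EuclideanSpace ℝ (Fin n) |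
        (ρ (fun ω => ENNReal.ofReal ‖∑ i, x i • f i ω‖)).toReal + ℓ x ≤ 1} := by
  classical
  have hmeas : ∀ x : V n, StronglyMeasurable (fun ω => Lmap f ω x) := by
    intro x
    have e : (fun ω => Lmap f ω x) = fun ω => ∑ i, ((idV n).symm x) i • f i ω := by
      funext ω
      rw [← Lmap_apply, (idV n).apply_symm_apply]
    rw [e]
    exact Finset.stronglyMeasurable_fun_sum _ fun i _ => (hf i).const_smul _
  have hm : ∀ x : V n, Measurable (fun ω => ‖Lmap f ω x‖) := fun x => (hmeas x).norm.measurable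
  set N : V n → ℝ := fun x => (ρ fun ω => ENNReal.ofReal ‖Lmap f ω x‖).toReal with hN
  have hNe : ∀ x : V n, (fun ω => ENNReal.ofReal ‖Lmap f ω x‖) =
      fun ω => ENNReal.ofReal ‖∑ i, ((idV n).symm x) i • f i ω‖ := by
    intro x
    funext ω
    rw [← Lmap_apply, (idV n).apply_symm_apply]
  have hNfin : ∀ x : V n, ρ (fun ω => ENNReal.ofReal ‖Lmap f ω x‖) ≠ ⊤ := by
    intro x
    rw [hNe]
    exact hfin _
  let _ : Norm (V n) := ⟨N⟩
  have hnorm : ∀ x : V n, ‖x‖ = (ρ fun ω => ENNReal.ofReal ‖Lmap f ω x‖).toReal := fun x => rfl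
  have hzero : ρ (fun _ => 0) = 0 := by
    have := hρ.smul 0 (fun _ => 0) measurable_const
    simpa using this
  have core : NormedSpace.Core ℝ (V n) := by
    refine ⟨⟨fun x => ENNReal.toReal_nonneg, ?_, ?_⟩, ?_⟩
    · intro a x
      rw [hnorm, hnorm]
      have h1 := nn_smul hρ (hm x) (abs_nonneg a)
      unfold nn at h1
      rw [Real.norm_eq_abs, ← h1]
      congr 2
      funext ω
      rw [map_smul, norm_smul, Real.norm_eq_abs]
    · intro x y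
      rw [hnorm, hnorm, hnorm]
      have h1 := nn_add hρ (f := fun ω => ‖Lmap f ω x‖) (g := fun ω => ‖Lmap f ω y‖)
        (fun ω => norm_nonneg _) (fun ω => norm_nonneg _) (hm x) (hm y) (hNfin x) (hNfin y)
      refine le_trans ?_ h1.1
      refine ENNReal.toReal_mono h1.2 (hρ.mono _ _ fun ω => ENNReal.ofReal_le_ofReal ?_)
      rw [map_add]
      exact norm_add_le _ _
    · intro x
      rw [hnorm]
      constructor
      · intro h0
        by_contra hx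
        have h1 : ρ (fun ω => ENNReal.ofReal ‖Lmap f ω x‖) = 0 := by
          rcases (ENNReal.toReal_eq_zero_iff _).mp h0 with h | h
          · exact h
          · exact absurd h (hNfin x)
        rw [hNe] at h1
        refine hdef ((idV n).symm x) ?_ h1
        intro h2
        apply hx
        rw [← (idV n).apply_symm_apply x, h2, map_zero]
      · intro h0
        rw [h0]
        simp [hzero]
  let _ : NormedAddCommGroup (V n) := NormedAddCommGroup.ofCore core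
  let _ : NormedSpace ℝ (V n) := NormedSpace.ofCore core
  have : FiniteDimensional ℝ (V n) := Module.Finite.equiv (idV n)
  have hfr : finrank ℝ (V n) = n := by
    rw [← (idV n).finrank_eq, finrank_euclideanSpace_fin]
  have hRep : RepL ρ (Lmap f) := by
    refine ⟨hmeas, fun x => ?_⟩
    rw [hnorm, ENNReal.ofReal_toReal (hNfin x)]
  have hnorm2 : ∀ x : EuclideanSpace ℝ (Fin n), ‖(idV n : EuclideanSpace ℝ (Fin n) →ₗ[ℝ] V n) x‖ =
      (ρ (fun ω => ENNReal.ofReal ‖∑ i, x i • f i ω‖)).toReal := by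
    intro x
    rw [hnorm]
    congr 2
    funext ω
    rw [← Lmap_apply]
    rfl
  have hconv := body_convex' (show 0 < β by linarith) (idV n : EuclideanSpace ℝ (Fin n) →ₗ[ℝ] V n)
    (idV n).injective ℓ (fun x => by rw [hnorm2]; exact hℓ x)
  simp only [hnorm2] at hconv
  refine ⟨hconv.1, ?_⟩
  obtain ⟨F, hF1, hF2⟩ := cover_space hρ hε0 hε1 hX hβ hβ1 hc0 hc1 hc2 hσ0 hσ1 hb1 hγ0 hγ1 hG hb2 (V n)
    (Lmap f) (ℓ.comp ((idV n).symm : V n →ₗ[ℝ] EuclideanSpace ℝ (Fin n))) hRep (by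
      intro x
      have h1 := hℓ ((idV n).symm x)
      rw [← hnorm2] at h1
      simpa using h1)
  rw [hfr] at hF1
  refine ⟨F.image (idV n).symm, le_trans (by exact_mod_cast Finset.card_image_le) hF1, ?_⟩
  intro y hy
  have hy' : (ρ (fun ω => ENNReal.ofReal ‖∑ i, y i • f i ω‖)).toReal + ℓ y ≤ 1 := hy
  obtain ⟨x, hx, hyx⟩ := hF2 (idV n y) (by
    have h1 := hnorm2 y
    rw [← h1] at hy'
    simpa using hy')
  simp only [mem_iUnion]
  refine ⟨(idV n).symm x, Finset.mem_image_of_mem _ hx, y - (idV n).symm x, ?_, by simp⟩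
  apply hconv.2
  have h2 := hnorm2 (y - (idV n).symm x)
  show (ρ (fun ω => ENNReal.ofReal ‖∑ i, (y - (idV n).symm x) i • f i ω‖)).toReal +
    ℓ (y - (idV n).symm x) < 1
  rw [← h2]
  have e1 : (idV n : EuclideanSpace ℝ (Fin n) →ₗ[ℝ] V n) (y - (idV n).symm x) = idV n y - x := by
    simp
  have e2 : (ℓ.comp ((idV n).symm : V n →ₗ[ℝ] EuclideanSpace ℝ (Fin n))) (idV n y - x) =
      ℓ (y - (idV n).symm x) := by
    simp
  rw [e1, ← e2]
  exact hyx

end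

/-- the norm of `L_p(L_1)` -/
lemma mixed {S Ω : Type*} [MeasurableSpace S] [MeasurableSpace Ω] (μ : Measure S) (ν : Measure Ω)
    [SFinite ν] {p : ℝ} (hp : 1 ≤ p) {q : ℕ} (hpq : p ≤ q) :
    FN (fun f : S × Ω → ℝ≥0∞ => (∫⁻ s, (∫⁻ ω, f (s, ω) ∂ν) ^ p ∂μ) ^ (1 / p)) ∧
      Super q (fun f : S × Ω → ℝ≥0∞ => (∫⁻ s, (∫⁻ ω, f (s, ω) ∂ν) ^ p ∂μ) ^ (1 / p)) := by
  have hp0 : 0 < p := by linarith
  have hmeas : ∀ f : S × Ω → ℝ≥0∞, Measurable f → Measurable (fun s => ∫⁻ ω, f (s, ω) ∂ν) :=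
    fun f hf => hf.lintegral_prod_right'
  have hs : ∀ f : S × Ω → ℝ≥0∞, Measurable f → ∀ s, Measurable (fun ω => f (s, ω)) :=
    fun f hf s => hf.comp measurable_prodMk_left
  have hpow : ∀ x : ℝ≥0∞, (x ^ (1 / p)) ^ q = x ^ ((q : ℝ) / p) := by
    intro x
    rw [← ENNReal.rpow_natCast, ← ENNReal.rpow_mul]
    congr 1
    ring
  refine ⟨⟨?_, ?_, ?_⟩, ?_⟩
  · intro f g hfg
    refine ENNReal.rpow_le_rpow ?_ (by positivity)
    refine lintegral_mono fun s => ?_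
    exact ENNReal.rpow_le_rpow (lintegral_mono fun ω => hfg (s, ω)) hp0.le
  · intro f g hf hg
    have h1 := ENNReal.lintegral_Lp_add_le (μ := μ) (hmeas f hf).aemeasurable
      (hmeas g hg).aemeasurable hp
    refine le_trans (le_of_eq ?_) h1
    congr 1
    refine lintegral_congr fun s => ?_
    have h2 := lintegral_add_left (μ := ν) (hs f hf s) (fun ω => g (s, ω))
    show (∫⁻ ω, f (s, ω) + g (s, ω) ∂ν) ^ p = (∫⁻ ω, f (s, ω) ∂ν + ∫⁻ ω, g (s, ω) ∂ν) ^ p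
    rw [h2]
  · intro c f hf
    have h1 : ∀ s, (∫⁻ ω, (c : ℝ≥0∞) * f (s, ω) ∂ν) ^ p =
        (c : ℝ≥0∞) ^ p * (∫⁻ ω, f (s, ω) ∂ν) ^ p := by
      intro s
      rw [lintegral_const_mul _ (hs f hf s), ENNReal.mul_rpow_of_nonneg _ _ hp0.le]
    simp only [h1]
    rw [lintegral_const_mul _ ((hmeas f hf).pow_const _), ENNReal.mul_rpow_of_nonneg _ _ (by positivity),
      ← ENNReal.rpow_mul, mul_one_div, div_self hp0.ne', ENNReal.rpow_one]
  · intro f g hf hg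
    simp only [hpow]
    have hqp : 1 ≤ (q : ℝ) / p := by
      rw [le_div_iff₀ hp0]
      linarith
    refine (ENNReal.add_rpow_le_rpow_add _ _ hqp).trans ?_
    refine ENNReal.rpow_le_rpow ?_ (by positivity)
    rw [← lintegral_add_left ((hmeas f hf).pow_const _)]
    refine lintegral_mono fun s => ?_
    rw [lintegral_add_left (hs f hf s)]
    exact ENNReal.add_rpow_le_rpow_add _ _ hp

end Pool.Agent.Helper31.Mon
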