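import Pool.Agent.Helper31.Mon.FN

set_option autoImplicit false
set_option linter.unusedSectionVars false

open MeasureTheory Metric Set Module
open scoped ENNReal NNReal

namespace Pool.Agent.Helper31.Mon

open Pool.Agent.Helper31.L1

section
variable {Ω : Type*} [MeasurableSpace Ω] {X : Type*} [NormedAddCommGroup X] [NormedSpace ℝ X]
variable {ρ : (Ω → ℝ≥0∞) → ℝ≥0∞} {E : Type*} [NormedAddCommGroup E] [NormedSpace ℝ E]
  {L : Ω → E →ₗ[ℝ] X}

lemma nn_sum (hρ : FN ρ) {J : Type*} (s : Finset J) (f : J → Ω → ℝ) (τ : J → ℝ)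
    (hτ : ∀ j, 0 ≤ τ j) (hf0 : ∀ j ω, 0 ≤ f j ω) (hfm : ∀ j, Measurable (f j))
    (hf : ∀ j, ρ (fun ω => ENNReal.ofReal (τ j * f j ω)) ≠ ⊤)
    (h0 : ρ (fun _ => ENNReal.ofReal 0) = 0) :
    nn ρ (fun ω => ∑ j ∈ s, τ j * f j ω) ≤ ∑ j ∈ s, τ j * nn ρ (f j) ∧
      ρ (fun ω => ENNReal.ofReal (∑ j ∈ s, τ j * f j ω)) ≠ ⊤ := by
  classical
  induction s using Finset.induction_on with
  | empty =>
    simp only [Finset.sum_empty]
    rw [nn, h0]
    simp
  | insert a s ha ih =>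
    have h1 := nn_add hρ (f := fun ω => τ a * f a ω) (g := fun ω => ∑ j ∈ s, τ j * f j ω)
      (fun ω => mul_nonneg (hτ a) (hf0 a ω))
      (fun ω => Finset.sum_nonneg fun j _ => mul_nonneg (hτ j) (hf0 j ω))
      ((hfm a).const_mul _) (Finset.measurable_fun_sum _ fun j _ => (hfm j).const_mul _)
      (hf a) ih.2
    simp only [Finset.sum_insert ha]
    refine ⟨h1.1.trans ?_, h1.2⟩
    rw [nn_smul hρ (hfm a) (hτ a)]
    linarith [ih.1]

end

section
variable {Ω : Type*} [MeasurableSpace Ω] {X : Type*} [NormedAddCommGroup X] [NormedSpace ℝ X]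
variable {ρ : (Ω → ℝ≥0∞) → ℝ≥0∞} {E : Type*} [NormedAddCommGroup E] [NormedSpace ℝ E]
  [FiniteDimensional ℝ E] [MeasurableSpace E] [BorelSpace E] {L : Ω → E →ₗ[ℝ] X}

lemma RepL.joint (h : RepL ρ L) : StronglyMeasurable (fun p : Ω × E => L p.1 p.2) := by
  set b := Module.finBasis ℝ E with hb
  have e : (fun p : Ω × E => L p.1 p.2) =
      fun p : Ω × E => ∑ i, (b.repr p.2 i) • L p.1 (b i) := by
    funext p
    conv_lhs => rw [← b.sum_repr p.2]
    rw [map_sum]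
    simp
  rw [e]
  refine Finset.stronglyMeasurable_fun_sum _ fun i _ => ?_
  refine StronglyMeasurable.smul ?_ ?_
  · have : Continuous fun x : E => b.repr x i := by
      have h1 : Continuous (b.coord i) := LinearMap.continuous_of_finiteDimensional _
      exact h1
    exact (this.stronglyMeasurable).comp_measurable measurable_snd
  · exact (h.meas (b i)).comp_measurable measurable_fst

lemma RepL.avg_meas (h : RepL ρ L) : Measurable (fun ω => avg (L ω)) := by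
  have h1 : StronglyMeasurable (fun p : Ω × E => ‖L p.1 p.2‖) := h.joint.norm
  exact (StronglyMeasurable.integral_prod_right (ν := unif E)
    (f := fun ω k => ‖L ω k‖) h1).measurable

/-- the summed two point inequality -/
lemma RepL.sum_two_point (hρ : FN ρ) (h : RepL ρ L) {θ ε : ℝ} (hX : Flat X θ ε)
    {J : Type} [Fintype J] (y : J → E) (τ : J → ℝ) (hτ : ∀ j, 0 ≤ τ j)
    (k : E) {t : ℝ} (ht : 0 < t) (hk : ‖k‖ ≤ 1) {S : J → Set Ω} (hS : ∀ j, MeasurableSet (S j))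
    (hSy : ∀ j, ∀ ω ∈ S j, t * ‖L ω k‖ ≤ ε * ‖L ω (y j)‖) {c : ℝ} (hc0 : 0 ≤ c) (hc1 : c ≤ 1)
    (hc2 : c ≤ 2 * (1 - θ)) {σ γ : ℝ} (hσ0 : 0 ≤ σ) (hγ1 : γ ≤ 1) (hG : Gain ρ (c * σ) γ)
    (hσ : ∀ ω, 0 < avg (L ω) → σ * ∑ j, τ j ≤ ∑ j, Set.indicator {j | ω ∈ S j} τ j) :
    ∑ j, τ j * (‖y j + t • k‖ + ‖y j - t • k‖ - 2 * ‖y j‖) ≤
      2 * t * ((1 - γ) * ∑ j, τ j) := by
  classical
  have hm : ∀ x, Measurable (fun ω => ‖L ω x‖) := fun x => (h.meas x).norm.measurable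
  set T := ∑ j, τ j with hT
  have hT0 : 0 ≤ T := Finset.sum_nonneg fun j _ => hτ j
  set s : J → ℝ := fun j => nn ρ ((S j).indicator fun ω => ‖L ω k‖) with hs
  have hs0 : ∀ j, 0 ≤ s j := fun j => nn_nonneg _
  choose b₁ b₂ hm1 hm2 h01 h02 h11 h12 hsum hnorm using fun j =>
    h.two_point hρ hX (y j) k ht (hS j) (hSy j) hc0 hc1 hc2
  -- the sum of the local norms
  have h2 : σ * T * ‖k‖ ≤ ∑ j, τ j * s j := by
    have hfin : ∀ j, ρ (fun ω => ENNReal.ofReal (τ j * (S j).indicator (fun ω => ‖L ω k‖) ω)) ≠ ⊤ := by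
      intro j
      refine h.fin hρ (τ j • k) fun ω => ?_
      rw [map_smul, norm_smul, Real.norm_of_nonneg (hτ j)]
      refine mul_le_mul_of_nonneg_left ?_ (hτ j)
      exact Set.indicator_le_self' (fun _ _ => norm_nonneg _) ω
    have h00 : ρ (fun _ => ENNReal.ofReal 0) = 0 := by
      have := h.norm 0
      simpa using this
    have h3 := nn_sum hρ Finset.univ (fun j => (S j).indicator fun ω => ‖L ω k‖) τ hτ
      (fun j ω => Set.indicator_nonneg (fun _ _ => norm_nonneg _) ω)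
      (fun j => (hm k).indicator (hS j)) hfin h00
    refine le_trans ?_ h3.1
    rw [← h.nn_norm k, ← nn_smul hρ (hm k) (by positivity)]
    refine nn_mono hρ (fun ω => ?_) h3.2
    have e1 : ∑ j, τ j * (S j).indicator (fun ω => ‖L ω k‖) ω =
        (∑ j, Set.indicator {j | ω ∈ S j} τ j) * ‖L ω k‖ := by
      rw [Finset.sum_mul]
      refine Finset.sum_congr rfl fun j _ => ?_
      by_cases hj : ω ∈ S j
      · rw [Set.indicator_of_mem hj, Set.indicator_of_mem (show j ∈ {j | ω ∈ S j} from hj)]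
      · rw [Set.indicator_of_notMem hj, Set.indicator_of_notMem (show j ∉ {j | ω ∈ S j} from hj)]
        simp
    rw [e1]
    rcases (avg_nonneg (L ω)).eq_or_lt with h0 | h0
    · have h4 := sup_le (L ω) hk
      rw [← h0, mul_zero] at h4
      have h5 : ‖L ω k‖ = 0 := le_antisymm h4 (norm_nonneg _)
      rw [h5]
      simp
    · exact mul_le_mul_of_nonneg_right (hσ ω h0) (norm_nonneg _)
  have htk : ‖t • k‖ = t * ‖k‖ := by rw [norm_smul, Real.norm_of_nonneg ht.le]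
  have hH : nn ρ (fun ω => ‖L ω (t • k)‖) = t * ‖k‖ := by rw [h.nn_norm, htk]
  have hg := hG J τ (fun ω => ‖L ω (t • k)‖) b₁ b₂ hτ (hm _) (h.fin hρ (t • k) fun ω => le_rfl)
    hm1 hm2 h01 h02 h11 h12 (by
      rw [hH]
      calc c * σ * T * (t * ‖k‖) = c * t * (σ * T * ‖k‖) := by ring
        _ ≤ c * t * ∑ j, τ j * s j := by gcongr
        _ = ∑ j, τ j * (c * t * s j) := by
          rw [Finset.mul_sum]
          refine Finset.sum_congr rfl fun j _ => ?_
          ring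
        _ ≤ _ := Finset.sum_le_sum fun j _ => mul_le_mul_of_nonneg_left (hsum j) (hτ j))
  rw [hH] at hg
  calc ∑ j, τ j * (‖y j + t • k‖ + ‖y j - t • k‖ - 2 * ‖y j‖)
      ≤ ∑ j, τ j * (nn ρ (fun ω => ‖L ω (t • k)‖ - b₁ j ω) +
        nn ρ (fun ω => ‖L ω (t • k)‖ - b₂ j ω)) :=
        Finset.sum_le_sum fun j _ => mul_le_mul_of_nonneg_left (by linarith [hnorm j]) (hτ j)
    _ ≤ 2 * (1 - γ) * T * (t * ‖k‖) := hg
    _ ≤ 2 * (1 - γ) * T * (t * 1) := by
        have h3 : 0 ≤ 2 * (1 - γ) * T := mul_nonneg (by linarith) hT0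
        gcongr
    _ = 2 * t * ((1 - γ) * T) := by ring

/-- Markov's inequality for one point -/
lemma markov_j (ℓ : E →ₗ[ℝ] ℝ) {β : ℝ} (hℓ : ∀ x, |ℓ x| ≤ (1 - β) * ‖x‖)
    (y : E) {t w η : ℝ} (ht : 0 < t) (hw0 : 0 ≤ w) (hη : 0 < η) (hβ1 : β ≤ 1) :
    t * (w + (2 - β) + η) * (1 - (unif E).real {k | ‖k‖ ≤ 1 ∧
      ‖y - t • k‖ + ℓ (y - t • k) ≤ ‖y‖ + ℓ y + t * (w + η)}) ≤
      ∫ k, ‖y - t • k‖ ∂(unif E) - ‖y‖ + t * (2 - β) := by
  set D : ℝ := 2 - β with hD
  have hD1 : 1 ≤ D := by rw [hD]; linarith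
  set U : E → ℝ := fun k => (‖y - t • k‖ - (‖y‖ - D * t)) - t * ℓ k with hU
  have hi : Integrable (fun k : E => ‖y - t • k‖) (unif E) := by
    have := int_sub (LinearMap.id : E →ₗ[ℝ] E) y t
    simpa using this
  have hℓi : Integrable (fun k : E => ℓ k) (unif E) := by
    have hc : Continuous ℓ := LinearMap.continuous_of_finiteDimensional ℓ
    exact (integrable_norm_iff hc.aestronglyMeasurable).mp (int_L ℓ)
  have hℓ0 : ∫ k, ℓ k ∂(unif E) = 0 := by
    have h1 := integral_neg' (E := E) (fun k => ℓ k)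
    simp only [map_neg, integral_neg] at h1
    linarith
  have hi1 : Integrable (fun k : E => ‖y - t • k‖ - (‖y‖ - D * t)) (unif E) :=
    hi.sub (integrable_const _)
  have hiU : Integrable U (unif E) := hi1.sub (hℓi.const_mul t)
  have hU0 : 0 ≤ᵐ[unif E] U := by
    filter_upwards [unif_ball] with k hk
    have h1 : ‖y‖ - ‖t • k‖ ≤ ‖y - t • k‖ := norm_sub_norm_le _ _
    rw [norm_smul, Real.norm_of_nonneg ht.le] at h1
    have h2 := (abs_le.mp (hℓ k)).2
    have h3 : t * ‖k‖ + t * ((1 - β) * ‖k‖) ≤ D * t := by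
      have : t * ‖k‖ + t * ((1 - β) * ‖k‖) = D * t * ‖k‖ := by rw [hD]; ring
      rw [this]
      have : 0 ≤ D * t := by positivity
      nlinarith
    have h4 : t * ℓ k ≤ t * ((1 - β) * ‖k‖) := by gcongr
    simp only [hU, Pi.zero_apply]
    linarith
  have hIU : ∫ k, U k ∂(unif E) = ∫ k, ‖y - t • k‖ ∂(unif E) - ‖y‖ + t * D := by
    have e1 : ∫ k, U k ∂(unif E) =
        ∫ k, (‖y - t • k‖ - (‖y‖ - D * t)) ∂(unif E) - ∫ k, t * ℓ k ∂(unif E) :=
      integral_sub hi1 (hℓi.const_mul t)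
    have e2 : ∫ k, (‖y - t • k‖ - (‖y‖ - D * t)) ∂(unif E) =
        ∫ k, ‖y - t • k‖ ∂(unif E) - ∫ _, (‖y‖ - D * t) ∂(unif E) :=
      integral_sub hi (integrable_const _)
    rw [e1, e2, integral_const_mul, hℓ0]
    simp
    ring
  have hM := mul_meas_ge_le_integral_of_nonneg hU0 hiU (t * (w + D + η))
  set V : Set E := {k | t * (w + D + η) ≤ U k} with hV
  have hVm : MeasurableSet V := by
    have hcℓ : Continuous ℓ := LinearMap.continuous_of_finiteDimensional ℓ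
    have hc : Continuous U := by
      simp only [hU]
      fun_prop
    exact (isClosed_le continuous_const hc).measurableSet
  have h4 : (unif E).real Vᶜ = 1 - (unif E).real V := by
    rw [probReal_compl_eq_one_sub hVm]
  have h5 : (unif E).real Vᶜ ≤
      (unif E).real {k | ‖k‖ ≤ 1 ∧
        ‖y - t • k‖ + ℓ (y - t • k) ≤ ‖y‖ + ℓ y + t * (w + η)} := by
    rw [measureReal_def, measureReal_def]
    refine ENNReal.toReal_mono (measure_ne_top _ _) (measure_mono_ae ?_)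
    filter_upwards [unif_ball] with k hk hkV
    refine ⟨hk, ?_⟩
    have : ¬ (t * (w + D + η) ≤ U k) := hkV
    simp only [hU, not_le] at this
    rw [map_sub, map_smul, smul_eq_mul]
    linarith
  have h6 : 0 ≤ t * (w + D + η) := by positivity
  rw [← hIU]
  refine le_trans ?_ hM
  refine mul_le_mul_of_nonneg_left ?_ h6
  linarith

/-- the uniform strategy -/
lemma RepL.unif_sum (hρ : FN ρ) (h : RepL ρ L) {θ ε : ℝ} (hε0 : 0 < ε)
    (hε1 : ε ≤ 1) (hX : Flat X θ ε) (hm : 0 < finrank ℝ E) (ℓ : E →ₗ[ℝ] ℝ) {β : ℝ}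
    (hβ : 1 / 2 ≤ β) (hβ1 : β ≤ 1)
    (hℓ : ∀ x, |ℓ x| ≤ (1 - β) * ‖x‖) {κ : ℝ} (hκ0 : 0 < κ) (hκ1 : κ ≤ 1)
    {J : Type} [Fintype J] (y : J → E) (τ : J → ℝ) (hτ : ∀ j, 0 ≤ τ j)
    (hy : ∀ j, ‖y j‖ + ℓ (y j) ≤ 1) (S : J → Set Ω) (hS : ∀ j, MeasurableSet (S j))
    (hSκ : ∀ j, ∀ ω ∈ S j, κ * avg (L ω) ≤ ‖L ω (y j)‖) {c : ℝ} (hc0 : 0 ≤ c) (hc1 : c ≤ 1)
    (hc2 : c ≤ 2 * (1 - θ)) {σ γ : ℝ} (hσ0 : 0 ≤ σ) (hγ0 : 0 ≤ γ) (hγ1 : γ ≤ 1)
    (hG : Gain ρ (c * σ) γ)
    (hσ : ∀ ω, 0 < avg (L ω) → σ * ∑ j, τ j ≤ ∑ j, Set.indicator {j | ω ∈ S j} τ j)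
    (r : ℝ) (hr : r = ε * κ / (12 * (finrank ℝ E + 1))) :
    β / (3 * Real.exp 2 * (finrank ℝ E + 1)) *
      (β / (β + (1 - γ))) ^ finrank ℝ E * ∑ j, τ j ≤
      ∑ j, τ j * (unif E).real
        {x | ‖y j - r • x‖ + ℓ (y j - r • x) ≤ 1 - r * β / (finrank ℝ E + 1)} := by
  set m := finrank ℝ E with hmm
  have hm1 : (1 : ℝ) ≤ m := by exact_mod_cast hm
  have hβ0 : 0 < β := by linarith
  set T := ∑ j, τ j with hT
  have hT0 : 0 ≤ T := Finset.sum_nonneg fun j _ => hτ j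
  set w : ℝ := 1 - γ with hw
  have hw0 : 0 ≤ w := by rw [hw]; linarith
  have hw1 : w ≤ 1 := by rw [hw]; linarith
  set η : ℝ := β / ((m : ℝ) + 1) with hη
  have hη0 : 0 < η := by positivity
  have hη2 : η ≤ β / 2 := by
    rw [hη]
    exact div_le_div_of_nonneg_left hβ0.le (by norm_num) (by linarith)
  have hr0 : 0 < r := by rw [hr]; positivity
  have hr1 : r ≤ 1 / 2 := by
    rw [hr, div_le_iff₀ (by positivity)]
    nlinarith [mul_le_one₀ hε1 hκ0.le hκ1]
  set l : ℝ := (w + 2 * η) / (β + w + η) with hl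
  have hden : 0 < β + w + η := by positivity
  have hl0 : 0 ≤ l := div_nonneg (by linarith) hden.le
  have hl' : 1 - l = (β - η) / (β + w + η) := by
    rw [hl]
    field_simp
    ring
  have hl1 : 0 < 1 - l := by rw [hl']; exact div_pos (by linarith) hden
  set p : ℝ := 1 - r * l * β with hp
  have hrlb : r * l * β ≤ r := by
    have : l * β ≤ 1 := mul_le_one₀ (by linarith) hβ0.le hβ1
    nlinarith
  have hp0 : 0 < p := by rw [hp]; linarith
  have hp1 : 1 / 2 ≤ p := by rw [hp]; linarith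
  set t : ℝ := r * (1 - l) / p with ht
  have ht0 : 0 < t := by rw [ht]; positivity
  have e2 : p * t = r * (1 - l) := by
    rw [ht]; field_simp
  have ht1 : t ≤ 2 * r := by
    rw [ht, div_le_iff₀ hp0]
    nlinarith
  have ht2 : t * (6 * (m + 1)) ≤ ε * κ := by
    have : 2 * r * (6 * (m + 1)) = ε * κ := by
      rw [hr]
      field_simp
      ring
    nlinarith
  -- the integrated inequality
  have hadd : ∀ j, Integrable (fun k => ‖y j + t • k‖) (unif E) := fun j => by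
    have := int_sub (LinearMap.id : E →ₗ[ℝ] E) (y j) (-t)
    simpa [neg_smul, sub_neg_eq_add] using this
  have hsub : ∀ j, Integrable (fun k => ‖y j - t • k‖) (unif E) := fun j => by
    have := int_sub (LinearMap.id : E →ₗ[ℝ] E) (y j) t
    simpa using this
  have hsymm : ∀ j, ∫ k, ‖y j + t • k‖ ∂(unif E) = ∫ k, ‖y j - t • k‖ ∂(unif E) := fun j => by
    have := integral_neg' (E := E) (fun k => ‖y j + t • k‖)
    rw [← this]
    refine integral_congr_ae (Filter.Eventually.of_forall fun k => ?_)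
    simp only [smul_neg, sub_eq_add_neg]
  have hint : ∑ j, τ j * (∫ k, ‖y j - t • k‖ ∂(unif E) - ‖y j‖) ≤ t * w * T := by
    have hI : ∀ j, Integrable (fun k => τ j * (‖y j + t • k‖ + ‖y j - t • k‖ - 2 * ‖y j‖))
        (unif E) := fun j => (((hadd j).add (hsub j)).sub (integrable_const _)).const_mul _
    have h1 : ∫ k, ∑ j, τ j * (‖y j + t • k‖ + ‖y j - t • k‖ - 2 * ‖y j‖) ∂(unif E) ≤
        ∫ _, 2 * t * (w * T) ∂(unif E) := by
      refine integral_mono_ae (integrable_finsetSum _ fun j _ => hI j) (integrable_const _) ?_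
      filter_upwards [unif_ball] with k hk
      refine h.sum_two_point hρ hX y τ hτ k ht0 hk hS (fun j ω hω => ?_) hc0 hc1 hc2 hσ0 hγ1 hG hσ
      have h2 := sup_le (L ω) hk
      rw [← hmm] at h2
      have h3 := hSκ j ω hω
      have h4 := avg_nonneg (L ω)
      calc t * ‖L ω k‖ ≤ t * (6 * (m + 1) * avg (L ω)) := by gcongr
        _ = t * (6 * (m + 1)) * avg (L ω) := by ring
        _ ≤ ε * κ * avg (L ω) := by gcongr
        _ = ε * (κ * avg (L ω)) := by ring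
        _ ≤ ε * ‖L ω (y j)‖ := by gcongr
    rw [integral_finsetSum _ fun j _ => hI j] at h1
    have h2 : ∀ j, ∫ k, τ j * (‖y j + t • k‖ + ‖y j - t • k‖ - 2 * ‖y j‖) ∂(unif E) =
        2 * (τ j * (∫ k, ‖y j - t • k‖ ∂(unif E) - ‖y j‖)) := by
      intro j
      have h3 : ∫ k, (‖y j + t • k‖ + ‖y j - t • k‖) ∂(unif E) =
          2 * ∫ k, ‖y j - t • k‖ ∂(unif E) := by
        rw [integral_add (hadd j) (hsub j), hsymm j]
        ring
      have h4 : ∫ k, (‖y j + t • k‖ + ‖y j - t • k‖ - 2 * ‖y j‖) ∂(unif E) =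
          ∫ k, (‖y j + t • k‖ + ‖y j - t • k‖) ∂(unif E) - ∫ _, 2 * ‖y j‖ ∂(unif E) :=
        integral_sub ((hadd j).add (hsub j)) (integrable_const _)
      rw [integral_const_mul, h4, h3]
      simp
      ring
    rw [Finset.sum_congr rfl fun j _ => h2 j, ← Finset.mul_sum] at h1
    simp only [integral_const, probReal_univ, one_smul] at h1
    linarith
  -- Markov's inequality
  set Q : J → ℝ := fun j => (unif E).real {k | ‖k‖ ≤ 1 ∧
    ‖y j - t • k‖ + ℓ (y j - t • k) ≤ ‖y j‖ + ℓ (y j) + t * (w + η)} with hQ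
  have hmk : η / 3 * T ≤ ∑ j, τ j * Q j := by
    have h1 : ∀ j, τ j * (t * (w + (2 - β) + η) * (1 - Q j)) ≤
        τ j * (∫ k, ‖y j - t • k‖ ∂(unif E) - ‖y j‖) + τ j * (t * (2 - β)) := fun j => by
      rw [← mul_add]
      exact mul_le_mul_of_nonneg_left (markov_j ℓ hℓ (y j) ht0 hw0 hη0 hβ1) (hτ j)
    have h2 := Finset.sum_le_sum fun j (_ : j ∈ Finset.univ) => h1 j
    rw [Finset.sum_add_distrib, ← Finset.sum_mul] at h2
    have h3 : ∑ j, τ j * (t * (w + (2 - β) + η) * (1 - Q j)) =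
        t * ((w + (2 - β) + η) * (T - ∑ j, τ j * Q j)) := by
      rw [hT, ← Finset.sum_sub_distrib, Finset.mul_sum, Finset.mul_sum]
      refine Finset.sum_congr rfl fun j _ => ?_
      ring
    rw [h3, ← hT] at h2
    have h4 : t * ((w + (2 - β) + η) * (T - ∑ j, τ j * Q j)) ≤ t * ((w + (2 - β)) * T) := by
      linarith
    have h5 := le_of_mul_le_mul_left h4 ht0
    have h6 : w + (2 - β) + η ≤ 3 := by linarith
    have h7 : η * T ≤ (w + (2 - β) + η) * ∑ j, τ j * Q j := by linarith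
    have h8 : 0 ≤ ∑ j, τ j * Q j := Finset.sum_nonneg fun j _ =>
      mul_nonneg (hτ j) measureReal_nonneg
    nlinarith
  -- the homotheties
  have hhom : ∀ j, (1 - l) ^ m * Q j ≤ (unif E).real
      {x | ‖y j - r • x‖ + ℓ (y j - r • x) ≤ 1 - r * β / (m + 1)} := by
    intro j
    have hby : ‖β • y j‖ ≤ 1 := by
      rw [norm_smul, Real.norm_of_nonneg hβ0.le]
      have := (abs_le.mp (hℓ (y j))).1
      have h2 := hy j
      nlinarith
    refine unif_homothety (E := E) hby hl0 (by linarith)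
      (G := {k | ‖k‖ ≤ 1 ∧ ‖y j - t • k‖ + ℓ (y j - t • k) ≤ ‖y j‖ + ℓ (y j) + t * (w + η)})
      (A := {x | ‖y j - r • x‖ + ℓ (y j - r • x) ≤ 1 - r * β / (m + 1)})
      (fun k hk => by simpa using hk.1) ?_
    rintro k ⟨hk1, hk2⟩
    have e1 : y j - r • (l • β • y j + (1 - l) • k) = p • (y j - t • k) := by
      rw [smul_sub, smul_smul p t, e2, hp]
      module
    rw [mem_ofPred_eq, e1, norm_smul, Real.norm_of_nonneg hp0.le, map_smul, smul_eq_mul,
      ← mul_add]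
    have e3 : l * (β + w + η) = w + 2 * η := by
      rw [hl]; field_simp
    have e4 : r * β / (m + 1) = r * η := by rw [hη]; ring
    rw [e4]
    calc p * (‖y j - t • k‖ + ℓ (y j - t • k)) ≤ p * (1 + t * (w + η)) :=
          mul_le_mul_of_nonneg_left (by linarith [hy j]) hp0.le
      _ = p + (p * t) * (w + η) := by ring
      _ = p + r * (1 - l) * (w + η) := by rw [e2]
      _ = 1 - r * (l * (β + w + η) - (w + η)) := by rw [hp]; ring
      _ = 1 - r * η := by rw [e3]; ring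
  have hnb := num_bound m hm1 β w η l (η / 3) hβ0 hw0 hη hη0 hl' le_rfl
  calc β / (3 * Real.exp 2 * (m + 1)) * (β / (β + w)) ^ m * T ≤ (1 - l) ^ m * (η / 3) * T := by
        gcongr
    _ = (1 - l) ^ m * (η / 3 * T) := by ring
    _ ≤ (1 - l) ^ m * ∑ j, τ j * Q j := by gcongr
    _ = ∑ j, τ j * ((1 - l) ^ m * Q j) := by
        rw [Finset.mul_sum]
        refine Finset.sum_congr rfl fun j _ => ?_
        ring
    _ ≤ _ := Finset.sum_le_sum fun j _ => mul_le_mul_of_nonneg_left (hhom j) (hτ j)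

end

end Pool.Agent.Helper31.Mon
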